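import Pool.Agent.K1H32.FE.Stm

/-!
# Random walks on Fuchsian groups: semicontinuity in `SL(2, R)`
-/

set_option autoImplicit false

open Filter Topology

namespace Pool.Agent.K1H32.FE

/-- A subgroup of a discrete subgroup is discrete. -/
theorem discrete_le {G : Type} [Group G] [TopologicalSpace G] {A B : Subgroup G} (h : A ≤ B)
    (hB : DiscreteTopology B) : DiscreteTopology A := by
  have := hB
  exact DiscreteTopology.of_subset (s := (B : Set G)) inferInstance h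

theorem zero_of_finite (hAct : S_ACT) (hVAB : S_VAB) (hPOLY : S_POLY) {ι : Type} [Fintype ι]
    (Γ : Subgroup SL) (σ : ι → SL) (m : ι → ℝ) (hΓ : DiscreteTopology Γ) (hσ : ∀ i, σ i ∈ Γ)
    (hm : IsPr m) (F : Finset K) (hF : F.Nonempty)
    (hinv : ∀ i, m i ≠ 0 → ∀ x ∈ F, act (σ i)⁻¹ x ∈ F) : hav σ m ≤ 0 := by
  classical
  obtain ⟨hmul, hone, -⟩ := hAct
  set Λ : Subgroup SL := Subgroup.closure {g | ∃ i, m i ≠ 0 ∧ σ i = g} with hΛ
  have hle : Λ ≤ Γ := by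
    rw [hΛ, Subgroup.closure_le]
    rintro g ⟨i, -, rfl⟩
    exact hσ i
  have hdisc : DiscreteTopology Λ := discrete_le hle hΓ
  have hinj : ∀ g : SL, Function.Injective (act g) := by
    intro g x y hxy
    have h1 : (act (g⁻¹ * g)) x = (act (g⁻¹ * g)) y := by
      rw [hmul]
      simp only [ContinuousMap.comp_apply, hxy]
    rw [inv_mul_cancel, hone] at h1
    exact h1
  have hinv' : ∀ g ∈ Λ, ∀ x ∈ F, act g x ∈ F := by
    intro g hg
    rw [hΛ] at hg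
    -- invariance under `g⁻¹` implies invariance under `g`, for finite sets
    have key : ∀ g : SL, (∀ x ∈ F, act g⁻¹ x ∈ F) → ∀ x ∈ F, act g x ∈ F := by
      intro g h x hx
      have hs : F.image (act g⁻¹) ⊆ F := by
        intro y hy
        obtain ⟨z, hz, rfl⟩ := Finset.mem_image.1 hy
        exact h z hz
      have hc : (F.image (act g⁻¹)).card = F.card := Finset.card_image_of_injective _ (hinj _)
      have he : F.image (act g⁻¹) = F := Finset.eq_of_subset_of_card_le hs hc.ge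
      rw [← he] at hx
      obtain ⟨z, hz, rfl⟩ := Finset.mem_image.1 hx
      have : act g (act g⁻¹ z) = act (g * g⁻¹) z := by rw [hmul]; rfl
      rw [this, mul_inv_cancel, hone]
      exact hz
    induction hg using Subgroup.closure_induction with
    | mem g hg =>
      obtain ⟨i, hi, rfl⟩ := hg
      exact key _ (hinv i hi)
    | one => intro x hx; rw [hone]; exact hx
    | mul a b _ _ ha hb =>
      intro x hx
      rw [hmul]
      exact ha _ (hb x hx)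
    | inv a _ ha =>
      refine key _ ?_
      simpa using ha
  obtain ⟨A, hA1, hA2, hA3⟩ := hVAB Λ F hdisc hF hinv'
  exact hPOLY ι SL σ m A Λ hm (fun i hi => Subgroup.subset_closure ⟨i, hi, rfl⟩) hA1 hA2 hA3

/-- Lower semicontinuity of the asymptotic entropy. -/
theorem lsc (hAct : S_ACT) (hVAB : S_VAB) (hPOLY : S_POLY) (hSTAT : S_STAT) (hULIM : S_ULIM)
    (hLSTAT : S_LSTAT) (hATOM : S_ATOM) (hPA : S_PA) (hPB : S_PB) (hLSC : S_LSC) (hWALK : S_WALK)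
    {ι : Type} [Fintype ι] {Γn : ℕ → Subgroup SL} {Γ : Subgroup SL} {σ : ι → SL}
    {m : ι → ℝ} {κ : ℕ → Type} [∀ n, Fintype (κ n)] {τ : ∀ n, κ n → SL} {r : ∀ n, κ n → ℝ}
    {e : ∀ n, ι → κ n} (hC : Conv Γn Γ σ m κ τ r e) {ε : ℝ} (hε : 0 < ε) :
    ∀ᶠ n in atTop, hav σ m - ε ≤ hav (τ n) (r n) := by
  by_contra hcon
  have hfr : ∃ᶠ n in atTop, ¬ (hav σ m - ε ≤ hav (τ n) (r n)) := Filter.not_eventually.1 hcon
  obtain ⟨U, hU1, hU2⟩ : ∃ U : Ultrafilter ℕ, (U : Filter ℕ) ≤ atTop ∧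
      ∀ᶠ n in (U : Filter ℕ), ¬ (hav σ m - ε ≤ hav (τ n) (r n)) := by
    have hne : (atTop ⊓ 𝓟 {n : ℕ | ¬ (hav σ m - ε ≤ hav (τ n) (r n))}).NeBot :=
      Filter.frequently_mem_iff_neBot.1 hfr
    have hle := Ultrafilter.of_le (atTop ⊓ 𝓟 {n : ℕ | ¬ (hav σ m - ε ≤ hav (τ n) (r n))})
    exact ⟨Ultrafilter.of (atTop ⊓ 𝓟 {n : ℕ | ¬ (hav σ m - ε ≤ hav (τ n) (r n))}),
      hle.trans inf_le_left, (hle.trans inf_le_right) (mem_principal_self _)⟩
  choose Ln hLn1 hLn2 using fun n => hSTAT (κ n) (τ n) (r n) (hC.pr_n n)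
  obtain ⟨L, hL1, hL2⟩ := hULIM U Ln hLn1
  have hL3 : Stat σ m L := hLSTAT ι Γn Γ σ m κ τ r e hC U Ln L hU1 hLn1 hLn2 hL2
  rcases hATOM ι σ m L hC.pr hL1 hL3 with hNA | ⟨F, hF, hinv⟩
  · obtain ⟨k, q, φ, hk, hφ, hMI⟩ := hPA ι Γ σ m L hC.disc hC.mem hC.pr hL1 hNA (ε / 2) (by positivity)
    have hk' : (0 : ℝ) < k := by exact_mod_cast hk
    have h1 := hLSC ι Γn Γ σ m κ τ r e hC U Ln L hU1 hLn1 hL1 hL2 q φ k (k * (ε / 2)) hφ
      (by positivity)
    obtain ⟨n, hn1, hn2⟩ := (h1.and hU2).exists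
    apply hn2
    have h2 := hPB (κ n) (τ n) (r n) (Ln n) q φ k (hC.pr_n n) (hLn1 n) (hLn2 n) hφ
    have h3 : (k : ℝ) * (hav σ m - ε) ≤ k * hav (τ n) (r n) := by nlinarith
    exact le_of_mul_le_mul_left h3 hk'
  · have h0 := zero_of_finite hAct hVAB hPOLY Γ σ m hC.disc hC.mem hC.pr F hF hinv
    obtain ⟨n, hn⟩ := hU2.exists
    apply hn
    have := (hWALK (κ n) SL (τ n) (r n) (hC.pr_n n)).2.1
    linarith

/-- Upper semicontinuity for a bounded number of letters. -/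
theorem usc (hUPP : S_UPP) (hWALK : S_WALK)
    {ι : Type} [Fintype ι] {Γn : ℕ → Subgroup SL} {Γ : Subgroup SL} {σ : ι → SL}
    {m : ι → ℝ} {κ : ℕ → Type} [∀ n, Fintype (κ n)] {τ : ∀ n, κ n → SL} {r : ∀ n, κ n → ℝ}
    {e : ∀ n, ι → κ n} (hC : Conv Γn Γ σ m κ τ r e) {M : ℕ} (hM : ∀ n, Fintype.card (κ n) ≤ M)
    {ε : ℝ} (hε : 0 < ε) :
    ∀ᶠ n in atTop, hav (τ n) (r n) ≤ hav σ m + ε := by
  have h1 := (hWALK ι SL σ m hC.pr).2.2.1
  have h2 : ∀ᶠ k : ℕ in atTop, Hw σ m k / k < hav σ m + ε / 2 :=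
    h1.eventually (gt_mem_nhds (by linarith))
  obtain ⟨k, hk1, hk2⟩ := (h2.and (eventually_ge_atTop 1)).exists
  have hk' : (0 : ℝ) < k := by exact_mod_cast hk2
  have h3 := hUPP ι Γn Γ σ m κ τ r e hC M hM k (k * (ε / 2)) (by positivity)
  filter_upwards [h3] with n hn
  have h4 := (hWALK (κ n) SL (τ n) (r n) (hC.pr_n n)).2.2.2.1 k
  have h5 : Hw σ m k < (hav σ m + ε / 2) * k := (div_lt_iff₀ hk').1 hk1
  have h6 : (k : ℝ) * hav (τ n) (r n) ≤ k * (hav σ m + ε) := by nlinarith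
  exact le_of_mul_le_mul_left h6 hk'

end Pool.Agent.K1H32.FE
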