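import Pool.Agent.K1H32.FE.Pb
import Pool.Agent.K1H12.FE.Lift
import Pool.Agent.K1H39.FE.Free
import Pool.Agent.K1H78.FE.Ent
import Pool.Agent.K1H78.FE.Walk
import Pool.Agent.K1H92.FE.Mod

/-!
# The counterexample for an unbounded number of generators
-/

set_option autoImplicit false

open Filter Topology

namespace Pool.Agent.K1H32.FE

open Classical in
/-- The asymptotic entropy of the problem in terms of letters. -/
theorem avez_tendsto {G : Type} [Group G] (S : Finset G) (μ : G → ℝ) (h : IsProb S μ) :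
    Tendsto (fun k : ℕ => shannon (law S μ k) / k) atTop
      (𝓝 (hav (fun i : S => (i : G)) (fun i : S => μ i))) := by
  have hm : IsPr (fun i : S => μ i) := by
    refine ⟨fun i => h.nonneg _, ?_⟩
    rw [← h.sum]
    exact Finset.sum_coe_sort S μ
  have h1 := (K1H78.FE.t_WALK S G (fun i : S => (i : G)) (fun i : S => μ i) hm).2.2.1
  refine h1.congr fun k => ?_
  rw [K1H78.FE.t_LAWH G S μ k h]

theorem avez_eq {G : Type} [Group G] (S : Finset G) (μ : G → ℝ) (h : IsProb S μ) :
    avez S μ = hav (fun i : S => (i : G)) (fun i : S => μ i) :=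
  (avez_tendsto S μ h).limUnder_eq

theorem hav_reindex {ι ι' G : Type} [Fintype ι] [Fintype ι'] [Group G] (e : ι ≃ ι') (σ : ι' → G)
    (m : ι' → ℝ) : hav (fun i => σ (e i)) (fun i => m (e i)) = hav σ m := by
  classical
  unfold hav
  congr 1
  ext k
  congr 1
  unfold Hw
  refine Hp_congr K1H78.FE.t_LAWF fun a => ?_
  unfold pr
  refine Fintype.sum_equiv (Equiv.arrowCongr (Equiv.refl (Fin (k + 1))) e) _ _ fun w => ?_
  rfl

/-- The number of letters of the long words. -/
def lenN (n : ℕ) : ℕ := (n + 2) ^ 2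

/-- The letters of the example. -/
abbrev Kn (n : ℕ) : Type := Bool ⊕ (Fin (lenN n) → Bool)

/-- The values of the letters. -/
def lt (n : ℕ) (i : Kn n) : PSL := Sum.elim (fun b => wd [b]) (fun w => wd (List.ofFn w)) i

/-- The weights of the letters. -/
noncomputable def wt (n : ℕ) (i : Kn n) : ℝ :=
  Sum.elim (fun _ => (1 - 1 / ((n : ℝ) + 2)) / 2) (fun _ => 1 / ((n : ℝ) + 2) / 2 ^ lenN n) i

theorem lenN_ge (n : ℕ) : 4 ≤ lenN n := by
  unfold lenN
  nlinarith [Nat.zero_le n]

theorem lt_inj (n : ℕ) : Function.Injective (lt n) := by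
  have hf := K1H39.FE.t_FREE
  have h4 := lenN_ge n
  rintro (b | w) (b' | w') h
  · have := hf h
    simp at this
    rw [this]
  · have := congrArg List.length (hf h)
    simp at this
    omega
  · have := congrArg List.length (hf h)
    simp at this
    omega
  · have := hf h
    rw [List.ofFn_injective this]

theorem wt_pr (n : ℕ) : IsPr (wt n) := by
  have h2 : (0 : ℝ) < (n : ℝ) + 2 := by positivity
  have h3 : 1 / ((n : ℝ) + 2) ≤ 1 := by
    rw [div_le_one h2]
    linarith [Nat.cast_nonneg (α := ℝ) n]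
  refine ⟨?_, ?_⟩
  · rintro (b | w)
    · simp only [wt, Sum.elim_inl]
      linarith
    · simp only [wt, Sum.elim_inr]
      positivity
  · rw [Fintype.sum_sum_type]
    simp only [wt, Sum.elim_inl, Sum.elim_inr, Finset.sum_const, Finset.card_univ,
      Fintype.card_bool, Fintype.card_fun, Fintype.card_fin, nsmul_eq_mul]
    push_cast
    field_simp
    ring

open Classical in
/-- The generating set of the example. -/
noncomputable def exS (n : ℕ) : Finset PSL := Finset.univ.image (lt n)

open Classical in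
/-- The limit generating set. -/
noncomputable def exS0 : Finset PSL := Finset.univ.image (fun b : Bool => wd [b])

/-- The measure of the example. -/
noncomputable def exμ (n : ℕ) (g : PSL) : ℝ := pr (wt n) (lt n) g

/-- The limit measure. -/
noncomputable def exμ0 (g : PSL) : ℝ := pr (fun _ : Bool => (1 / 2 : ℝ)) (fun b => wd [b]) g

theorem pr_inj_val {ι G : Type} [Fintype ι] (m : ι → ℝ) {σ : ι → G} (h : Function.Injective σ)
    (i : ι) : pr m σ (σ i) = m i := by
  classical
  unfold pr
  rw [Finset.sum_eq_single i]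
  · simp
  · intro j _ hj
    rw [if_neg (fun hh => hj (h hh))]
  · simp

theorem isProb_pr {ι G : Type} [Fintype ι] [DecidableEq G] {m : ι → ℝ} (hm : IsPr m)
    (σ : ι → G) : IsProb (Finset.univ.image σ) (pr m σ) := by
  refine ⟨fun g => ?_, fun g hg => ?_, ?_⟩
  · unfold pr
    refine Finset.sum_nonneg fun i _ => ?_
    split_ifs
    · exact hm.nonneg i
    · exact le_rfl
  · unfold pr
    refine Finset.sum_eq_zero fun i _ => ?_
    rw [if_neg]
    intro h
    exact hg (Finset.mem_image.2 ⟨i, Finset.mem_univ _, h⟩)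
  · unfold pr
    rw [Finset.sum_comm, ← hm.sum]
    refine Finset.sum_congr rfl fun i _ => ?_
    rw [Finset.sum_eq_single (σ i)]
    · simp
    · intro g _ hg
      rw [if_neg (fun h => hg h.symm)]
    · intro h
      exact absurd (Finset.mem_image.2 ⟨i, Finset.mem_univ _, rfl⟩) h

theorem short_inj : Function.Injective (fun b : Bool => wd [b]) := by
  intro b b' h
  have := K1H39.FE.t_FREE h
  simpa using this

theorem wd_append (l l' : List Bool) : wd (l ++ l') = wd l * wd l' := by
  unfold wd
  simp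

theorem wd_mem (l : List Bool) : wd l ∈ modPSL := by
  have hg : ∀ b, wd [b] ∈ modPSL := by
    intro b
    rw [← K1H92.FE.t_GEN]
    apply Subgroup.subset_closure
    cases b <;> simp
  induction l with
  | nil => exact one_mem _
  | cons b l ih =>
    have : wd (b :: l) = wd [b] * wd l := wd_append [b] l
    rw [this]
    exact mul_mem (hg b) ih

theorem exS_sub (n : ℕ) : ∀ g ∈ exS n, g ∈ modPSL := by
  classical
  intro g hg
  unfold exS at hg
  obtain ⟨i, -, rfl⟩ := Finset.mem_image.1 hg
  rcases i with b | w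
  · exact wd_mem _
  · exact wd_mem _

theorem short_mem (n : ℕ) (b : Bool) : wd [b] ∈ exS n := by
  classical
  unfold exS
  exact Finset.mem_image.2 ⟨Sum.inl b, Finset.mem_univ _, rfl⟩

theorem exS0_sub (n : ℕ) : exS0 ⊆ exS n := by
  classical
  intro g hg
  unfold exS0 at hg
  obtain ⟨b, -, rfl⟩ := Finset.mem_image.1 hg
  exact short_mem n b

theorem gen0 : Subgroup.closure (exS0 : Set PSL) = modPSL := by
  classical
  rw [← K1H92.FE.t_GEN]
  congr 1
  ext g
  unfold exS0
  simp

theorem gen_n (n : ℕ) : Subgroup.closure (exS n : Set PSL) = modPSL := by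
  apply le_antisymm
  · rw [Subgroup.closure_le]
    exact fun g hg => exS_sub n g hg
  · rw [← gen0]
    exact Subgroup.closure_mono (by exact_mod_cast exS0_sub n)

/-- Convergent sequences of a discrete group are eventually constant. -/
theorem ev_eq {a : ℕ → PSL} {b : PSL} (ha : ∀ n, a n ∈ modPSL) (h : Tendsto a atTop (𝓝 b)) :
    b ∈ modPSL ∧ ∀ᶠ n in atTop, a n = b := by
  have hd : DiscreteTopology modPSL := K1H92.FE.t_MOD.1
  have hcl : IsClosed (modPSL : Set PSL) := Subgroup.isClosed_of_discrete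
  have hb : b ∈ modPSL := hcl.mem_of_tendsto h (Eventually.of_forall ha)
  refine ⟨hb, ?_⟩
  have h1 : Tendsto (fun n => (⟨a n, ha n⟩ : modPSL)) atTop (𝓝 ⟨b, hb⟩) := by
    rw [tendsto_subtype_rng]
    exact h
  rw [nhds_discrete, tendsto_pure] at h1
  filter_upwards [h1] with n hn
  exact congrArg Subtype.val hn

theorem ex_data : Data (fun _ => modPSL) modPSL exS exS0 exμ exμ0 := by
  classical
  refine
    { fuchsian_n := fun _ => K1H92.FE.t_MOD.1
      fuchsian := K1H92.FE.t_MOD.1
      gen_n := gen_n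
      gen := gen0
      geo := ⟨fun b hb => ⟨fun _ => b, fun _ => hb, tendsto_const_nhds⟩, ?_⟩
      geo_S := ⟨fun b hb => ⟨fun _ => b, fun n => exS0_sub n hb, tendsto_const_nhds⟩, ?_⟩
      prob_n := fun n => isProb_pr (wt_pr n) (lt n)
      prob := isProb_pr (m := fun _ : Bool => (1 / 2 : ℝ)) ⟨fun _ => by norm_num, by simp⟩
        (fun b => wd [b])
      weights := ?_ }
  · intro φ a b _ ha hb
    exact (ev_eq ha hb).1
  · intro φ a b hφ ha hb
    obtain ⟨hbm, hev⟩ := ev_eq (fun k => exS_sub (φ k) _ (ha k)) hb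
    by_contra hbS
    obtain ⟨k0, hk0⟩ := eventually_atTop.1 hev
    have h1 : ∀ k, k0 ≤ k → ∃ w : Fin (lenN (φ k)) → Bool, wd (List.ofFn w) = b := by
      intro k hk
      have h2 := ha k
      rw [hk0 k hk] at h2
      change b ∈ exS (φ k) at h2
      unfold exS at h2
      obtain ⟨i, -, hi⟩ := Finset.mem_image.1 h2
      rcases i with c | w
      · exfalso
        apply hbS
        change b ∈ exS0
        unfold exS0
        exact Finset.mem_image.2 ⟨c, Finset.mem_univ _, hi⟩
      · exact ⟨w, hi⟩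
    obtain ⟨w1, hw1⟩ := h1 k0 le_rfl
    obtain ⟨w2, hw2⟩ := h1 (k0 + 1) (by omega)
    have h3 := congrArg List.length (K1H39.FE.t_FREE (hw1.trans hw2.symm))
    simp only [List.length_ofFn] at h3
    have h4 : φ k0 < φ (k0 + 1) := hφ (by omega)
    unfold lenN at h3
    nlinarith
  · intro s t hs ht hst
    obtain ⟨htm, hev⟩ := ev_eq (fun k => exS_sub k _ (hs k)) hst
    unfold exS0 at ht
    obtain ⟨b, -, rfl⟩ := Finset.mem_image.1 ht
    have e0 : exμ0 (wd [b]) = 1 / 2 := pr_inj_val (fun _ : Bool => (1 / 2 : ℝ)) short_inj b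
    rw [e0]
    have e1 : ∀ n, exμ n (wd [b]) = (1 - 1 / ((n : ℝ) + 2)) / 2 := fun n =>
      pr_inj_val (wt n) (lt_inj n) (Sum.inl b)
    have h5 : Tendsto (fun n : ℕ => (1 - 1 / ((n : ℝ) + 2)) / 2) atTop (𝓝 ((1 - 0) / 2)) := by
      refine Tendsto.div_const (tendsto_const_nhds.sub ?_) 2
      have h6 : Tendsto (fun n : ℕ => (n : ℝ) + 2) atTop atTop :=
        tendsto_atTop_add_const_right _ _ tendsto_natCast_atTop_atTop
      exact h6.const_div_atTop 1
    rw [sub_zero] at h5
    refine h5.congr' ?_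
    filter_upwards [hev] with n hn
    rw [hn, e1]

theorem exh_n (n : ℕ) : ((n : ℝ) + 2) * Real.log 2 ≤ hav (lt n) (wt n) := by
  have hpos : (0 : ℝ) < (n : ℝ) + 2 := by positivity
  have h4 : 1 / ((n : ℝ) + 2) * (lenN n : ℝ) * Real.log 2 = ((n : ℝ) + 2) * Real.log 2 := by
    have h5 : (lenN n : ℝ) = ((n : ℝ) + 2) ^ 2 := by
      unfold lenN
      push_cast
      rfl
    rw [h5]
    field_simp
  rw [← h4]
  exact K1H39.FE.t_EXH PSL wd (lenN n) (1 / ((n : ℝ) + 2)) wd_append K1H39.FE.t_FREE
    (by positivity) (by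
      rw [div_le_one hpos]
      linarith [Nat.cast_nonneg (α := ℝ) n]) (by have := lenN_ge n; omega)

/-- The letters as elements of the generating set. -/
noncomputable def letE (n : ℕ) (i : Kn n) : exS n :=
  ⟨lt n i, by
    classical
    exact Finset.mem_image.2 ⟨i, Finset.mem_univ _, rfl⟩⟩

theorem letE_bij (n : ℕ) : Function.Bijective (letE n) := by
  classical
  refine ⟨fun i j h => lt_inj n (congrArg Subtype.val h), ?_⟩
  rintro ⟨g, hg⟩
  have hg' := hg
  unfold exS at hg'
  obtain ⟨i, -, hi⟩ := Finset.mem_image.1 hg'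
  exact ⟨i, Subtype.ext hi⟩

theorem ex_avez (n : ℕ) : ((n : ℝ) + 2) * Real.log 2 ≤ avez (exS n) (exμ n) := by
  have hP : IsProb (exS n) (exμ n) := by
    classical
    exact isProb_pr (wt_pr n) (lt n)
  rw [avez_eq (exS n) (exμ n) hP,
    ← hav_reindex (Equiv.ofBijective (letE n) (letE_bij n)) (fun i : exS n => (i : PSL))
      (fun i : exS n => exμ n i)]
  have h1 : (fun i => exμ n ((Equiv.ofBijective (letE n) (letE_bij n)) i : exS n)) = wt n :=
    funext fun i => pr_inj_val (wt n) (lt_inj n) i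
  have h2 : (fun i => (((Equiv.ofBijective (letE n) (letE_bij n)) i : exS n) : PSL)) = lt n :=
    funext fun i => rfl
  rw [h1, h2]
  exact exh_n n

theorem t_CEX : S_CEX := by
  refine ⟨modPSL, exS, exS0, exμ, exμ0, ex_data, K1H92.FE.t_MOD.2, ?_⟩
  refine tendsto_atTop_mono ex_avez ?_
  have h6 : Tendsto (fun n : ℕ => (n : ℝ) + 2) atTop atTop :=
    tendsto_atTop_add_const_right _ _ tendsto_natCast_atTop_atTop
  exact h6.atTop_mul_const (Real.log_pos (by norm_num))

end Pool.Agent.K1H32.FE
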