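import Pool.Agent.K1H32.FE.Defs

/-!
# Random walks on Fuchsian groups: definitions used in the proof

Entropy of random variables on a finite weighted space, letter families (random walks), the action
of `SL(2, R)` on the circle of directions, states (normalised positive functionals), and the mutual
information of the position of the walk and of a soft partition of the circle.
-/

set_option autoImplicit false

open Filter Topology

namespace Pool.Agent.K1H32.FE

/-! ### Finite weighted spaces -/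

section Fin

variable {Ω α : Type} [Fintype Ω]

open Classical in
/-- Mass of `X = a`. -/
noncomputable def pr (p : Ω → ℝ) (X : Ω → α) (a : α) : ℝ := ∑ ω, if X ω = a then p ω else 0

open Classical in
/-- Entropy of `X`. -/
noncomputable def Hp (p : Ω → ℝ) (X : Ω → α) : ℝ :=
  ∑ a ∈ Finset.univ.image X, Real.negMulLog (pr p X a)

end Fin

/-! ### Walks with letters in a finite type -/

section Walk

variable {ι G : Type} [Group G]

/-- Weight of a word. -/
noncomputable def wp (m : ι → ℝ) (k : ℕ) (w : Fin k → ι) : ℝ := ∏ i, m (w i)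

/-- Value of a word. -/
def wx (σ : ι → G) (k : ℕ) (w : Fin k → ι) : G := (List.ofFn (fun i => σ (w i))).prod

variable [Fintype ι]

/-- `H(μ^{*k})`. -/
noncomputable def Hw (σ : ι → G) (m : ι → ℝ) (k : ℕ) : ℝ := Hp (wp m k) (wx σ k)

/-- Asymptotic entropy, as an infimum. -/
noncomputable def hav (σ : ι → G) (m : ι → ℝ) : ℝ := ⨅ k : ℕ, Hw σ m (k + 1) / ((k : ℝ) + 1)

/-- Probability weights on the letters. -/
structure IsPr (m : ι → ℝ) : Prop where
  nonneg : ∀ i, 0 ≤ m i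
  sum : ∑ i, m i = 1

end Walk

/-! ### The circle -/

/-- The circle of directions. -/
abbrev K : Type := {v : ℝ × ℝ // v.1 ^ 2 + v.2 ^ 2 = 1}

/-- Matrix times vector. -/
def mv (g : SL) (v : ℝ × ℝ) : ℝ × ℝ := (g 0 0 * v.1 + g 0 1 * v.2, g 1 0 * v.1 + g 1 1 * v.2)

/-- Euclidean norm of `g v`. -/
noncomputable def rr (g : SL) (v : ℝ × ℝ) : ℝ := √((mv g v).1 ^ 2 + (mv g v).2 ^ 2)

/-- Square of the Hilbert-Schmidt norm. -/
def nsq (g : SL) : ℝ := g 0 0 ^ 2 + g 0 1 ^ 2 + g 1 0 ^ 2 + g 1 1 ^ 2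

theorem det2 (g : SL) : g 0 0 * g 1 1 - g 0 1 * g 1 0 = 1 := by
  have := g.det_coe
  rw [Matrix.det_fin_two] at this
  exact this

theorem mv_ne (g : SL) {v : ℝ × ℝ} (hv : v ≠ 0) : mv g v ≠ 0 := by
  intro h
  apply hv
  have h1 : g 0 0 * v.1 + g 0 1 * v.2 = 0 := congrArg Prod.fst h
  have h2 : g 1 0 * v.1 + g 1 1 * v.2 = 0 := congrArg Prod.snd h
  have hd := det2 g
  have e1 : v.1 = 0 := by linear_combination (-v.1) * hd + g 1 1 * h1 - g 0 1 * h2
  have e2 : v.2 = 0 := by linear_combination (-v.2) * hd + g 0 0 * h2 - g 1 0 * h1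
  exact Prod.ext e1 e2

theorem K_ne (v : K) : (v : ℝ × ℝ) ≠ 0 := by
  intro h
  have := v.2
  rw [h] at this
  norm_num at this

theorem rr_sq (g : SL) (v : ℝ × ℝ) : rr g v ^ 2 = (mv g v).1 ^ 2 + (mv g v).2 ^ 2 := by
  unfold rr
  rw [Real.sq_sqrt (by positivity)]

theorem rr_pos (g : SL) (v : K) : 0 < rr g v := by
  unfold rr
  apply Real.sqrt_pos.2
  rcases eq_or_ne (mv g v).1 0 with h | h
  · have h2 : (mv g (v : ℝ × ℝ)).2 ≠ 0 := fun h' => mv_ne g (K_ne v) (Prod.ext h h')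
    positivity
  · positivity

theorem continuous_mv (g : SL) : Continuous (mv g) := by
  unfold mv
  fun_prop

theorem continuous_rr (g : SL) : Continuous (rr g) := by
  unfold rr
  have := continuous_mv g
  fun_prop

/-- The action of `SL(2, R)` on the circle of directions. -/
noncomputable def act (g : SL) : C(K, K) where
  toFun v := ⟨((mv g v).1 / rr g v, (mv g v).2 / rr g v), by
    have h := rr_pos g v
    have h2 := rr_sq g v
    simp only [div_pow]
    rw [← add_div, ← h2]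
    exact div_self (by positivity)⟩
  continuous_toFun := by
    apply Continuous.subtype_mk
    have h1 : Continuous fun v : K => mv g v := (continuous_mv g).comp continuous_subtype_val
    have h2 : Continuous fun v : K => rr g v := (continuous_rr g).comp continuous_subtype_val
    exact (h1.fst.div h2 fun v => (rr_pos g v).ne').prodMk (h1.snd.div h2 fun v => (rr_pos g v).ne')

/-! ### States -/

/-- A normalised positive functional on `C(K)`. -/
structure IsState {X : Type} [TopologicalSpace X] (L : C(X, ℝ) →ₗ[ℝ] ℝ) : Prop where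
  nonneg : ∀ f : C(X, ℝ), (∀ x, 0 ≤ f x) → 0 ≤ L f
  one : L 1 = 1

/-- `L` is stationary for the walk with letters `σ` and weights `m`. -/
def Stat {ι : Type} [Fintype ι] (σ : ι → SL) (m : ι → ℝ) (L : C(K, ℝ) →ₗ[ℝ] ℝ) : Prop :=
  ∀ f : C(K, ℝ), L f = ∑ i, m i * L (f.comp (act (σ i)))

/-- A soft partition of the circle. -/
structure IsPart {q : ℕ} (φ : Fin q → C(K, ℝ)) : Prop where
  nonneg : ∀ a x, 0 ≤ φ a x
  sum : ∀ x, ∑ a, φ a x = 1

section MI

variable {ι : Type} [Fintype ι]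

/-- Joint weights of the word `w` and of the cell `a` of the point `w ξ'`. -/
noncomputable def jp (σ : ι → SL) (m : ι → ℝ) (L : C(K, ℝ) →ₗ[ℝ] ℝ) {q : ℕ}
    (φ : Fin q → C(K, ℝ)) (k : ℕ) (ω : (Fin k → ι) × Fin q) : ℝ :=
  wp m k ω.1 * L ((φ ω.2).comp (act (wx σ k ω.1)))

/-- Mutual information of `X_k` and of the cell. -/
noncomputable def MI (σ : ι → SL) (m : ι → ℝ) (L : C(K, ℝ) →ₗ[ℝ] ℝ) {q : ℕ}
    (φ : Fin q → C(K, ℝ)) (k : ℕ) : ℝ :=
  Hp (jp σ m L φ k) (fun ω => wx σ k ω.1) + Hp (jp σ m L φ k) (fun ω => ω.2) -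
    Hp (jp σ m L φ k) (fun ω => (wx σ k ω.1, ω.2))

end MI

/-- `L` has no atoms: small arcs are uniformly small. -/
def NoAtom (L : C(K, ℝ) →ₗ[ℝ] ℝ) : Prop :=
  ∀ ε : ℝ, 0 < ε → ∃ δ : ℝ, 0 < δ ∧ ∀ (x : K) (ψ : C(K, ℝ)), (∀ y, 0 ≤ ψ y ∧ ψ y ≤ 1) →
    (∀ y, ψ y ≠ 0 → dist y x < δ) → L ψ ≤ ε

/-- Convergence of walks: the letters `i : ι` of the limit walk are matched with the letters
`e n i` of the `n`-th walk. -/
structure Conv {ι : Type} [Fintype ι] (Γn : ℕ → Subgroup SL) (Γ : Subgroup SL) (σ : ι → SL)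
    (m : ι → ℝ) (κ : ℕ → Type) [∀ n, Fintype (κ n)] (τ : ∀ n, κ n → SL) (r : ∀ n, κ n → ℝ)
    (e : ∀ n, ι → κ n) : Prop where
  disc : DiscreteTopology Γ
  lim : ∀ (φ : ℕ → ℕ) (a : ℕ → SL) (b : SL), StrictMono φ → (∀ k, a k ∈ Γn (φ k)) →
    Tendsto a atTop (𝓝 b) → b ∈ Γ
  mem : ∀ i, σ i ∈ Γ
  mem_n : ∀ n j, τ n j ∈ Γn n
  pr : IsPr m
  pr_n : ∀ n, IsPr (r n)
  inj : ∀ᶠ n in atTop, Function.Injective (e n)
  letters : ∀ i, Tendsto (fun n => τ n (e n i)) atTop (𝓝 (σ i))
  weights : ∀ i, Tendsto (fun n => r n (e n i)) atTop (𝓝 (m i))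

end Pool.Agent.K1H32.FE
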