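import Mathlib

/-!
# Random walks on Fuchsian groups: the data of the problem

`PSL = PSL(2, R)` with its quotient topology, geometric (Chabauty) convergence, the law of the
product of `k` independent elements, Shannon entropy, asymptotic (Avez) entropy, Fuchsian groups,
groups of finite covolume.
-/

set_option autoImplicit false

open Filter Topology MeasureTheory

namespace Pool.Agent.K1H32.FE

/-- `PSL(2, R)`, a topological group with the quotient topology of `SL(2, R)`. -/
abbrev PSL : Type := Matrix.ProjectiveSpecialLinearGroup (Fin 2) ℝ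

/-- `SL(2, R)`. -/
abbrev SL : Type := Matrix.SpecialLinearGroup (Fin 2) ℝ

/-- Geometric (Chabauty) convergence of the sets `A n` to the set `B`: every point of `B` is a limit
of points of the sets `A n`, and every limit of points of a subsequence belongs to `B`. -/
def Geo {G : Type} [TopologicalSpace G] (A : ℕ → Set G) (B : Set G) : Prop :=
  (∀ b ∈ B, ∃ a : ℕ → G, (∀ n, a n ∈ A n) ∧ Tendsto a atTop (𝓝 b)) ∧
  ∀ (φ : ℕ → ℕ) (a : ℕ → G) (b : G), StrictMono φ → (∀ k, a k ∈ A (φ k)) →
    Tendsto a atTop (𝓝 b) → b ∈ B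

/-- `μ` is a probability measure supported on the finite set `S`. -/
structure IsProb {G : Type} (S : Finset G) (μ : G → ℝ) : Prop where
  nonneg : ∀ g, 0 ≤ μ g
  supp : ∀ g, g ∉ S → μ g = 0
  sum : ∑ g ∈ S, μ g = 1

open Classical in
/-- The convolution power `μ^{*k}`, for `μ` supported on the finite set `S`: the law of the product
of `k` independent elements with law `μ`. -/
noncomputable def law {G : Type} [Group G] (S : Finset G) (μ : G → ℝ) (k : ℕ) (g : G) : ℝ :=
  ∑ w ∈ Fintype.piFinset (fun _ : Fin k => S),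
    if (List.ofFn w).prod = g then ∏ i, μ (w i) else 0

/-- Shannon entropy `- ∑ p log p` of a finitely supported function. -/
noncomputable def shannon {G : Type} (p : G → ℝ) : ℝ := ∑ᶠ g, Real.negMulLog (p g)

/-- Asymptotic (Avez) entropy `lim H(μ^{*k}) / k`. -/
noncomputable def avez {G : Type} [Group G] (S : Finset G) (μ : G → ℝ) : ℝ :=
  limUnder atTop (fun k : ℕ => shannon (law S μ k) / k)

/-- Fuchsian groups are the discrete subgroups of `PSL(2, R)`. -/
def IsFuchsian (Γ : Subgroup PSL) : Prop := DiscreteTopology Γ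

/-- `H^2 / Γ` has finite area: the translates under `Γ` of some measurable set of finite hyperbolic
area cover the upper half plane. -/
def FiniteCovolume (Γ : Subgroup PSL) : Prop :=
  ∃ D : Set UpperHalfPlane, MeasurableSet D ∧ volume D < ⊤ ∧
    ∀ z : UpperHalfPlane, ∃ A : SL, (A : PSL) ∈ Γ ∧ A • z ∈ D

/-- The data of the problem; `Γ` is a Fuchsian group, not necessarily of finite covolume. -/
structure Data (Γn : ℕ → Subgroup PSL) (Γ : Subgroup PSL) (Sn : ℕ → Finset PSL) (S : Finset PSL)
    (μn : ℕ → PSL → ℝ) (μ : PSL → ℝ) : Prop where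
  fuchsian_n : ∀ n, IsFuchsian (Γn n)
  fuchsian : IsFuchsian Γ
  gen_n : ∀ n, Subgroup.closure (Sn n : Set PSL) = Γn n
  gen : Subgroup.closure (S : Set PSL) = Γ
  geo : Geo (fun n => (Γn n : Set PSL)) (Γ : Set PSL)
  geo_S : Geo (fun n => (Sn n : Set PSL)) (S : Set PSL)
  prob_n : ∀ n, IsProb (Sn n) (μn n)
  prob : IsProb S μ
  weights : ∀ (s : ℕ → PSL) (t : PSL), (∀ n, s n ∈ Sn n) → t ∈ S → Tendsto s atTop (𝓝 t) →
    Tendsto (fun n => μn n (s n)) atTop (𝓝 (μ t))

end Pool.Agent.K1H32.FE
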