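import Pool.Agent.K1H32.FE.Pb

/-!
# The boundary point determines the walk up to `o(k)`
-/

set_option autoImplicit false

open Filter Topology

namespace Pool.Agent.K1H32.FE

theorem two_le_nsq (g : SL) : 2 ≤ nsq g := by
  have hd := det2 g
  unfold nsq
  nlinarith [sq_nonneg (g 0 0 - g 1 1), sq_nonneg (g 0 1 + g 1 0)]

theorem nsq_pos (g : SL) : 0 < nsq g := lt_of_lt_of_le two_pos (two_le_nsq g)

theorem nsq_mul (g h : SL) : nsq (g * h) ≤ nsq g * nsq h := by
  have e : ∀ i j, (g * h) i j = g i 0 * h 0 j + g i 1 * h 1 j := by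
    intro i j
    rw [Matrix.SpecialLinearGroup.coe_mul, Matrix.mul_apply, Fin.sum_univ_two]
  unfold nsq
  rw [e, e, e, e]
  have cs : ∀ a b x y : ℝ, (a * x + b * y) ^ 2 ≤ (a ^ 2 + b ^ 2) * (x ^ 2 + y ^ 2) := by
    intro a b x y
    nlinarith [sq_nonneg (a * y - b * x)]
  nlinarith [cs (g 0 0) (g 0 1) (h 0 0) (h 1 0), cs (g 0 0) (g 0 1) (h 0 1) (h 1 1),
    cs (g 1 0) (g 1 1) (h 0 0) (h 1 0), cs (g 1 0) (g 1 1) (h 0 1) (h 1 1)]

theorem nsq_one : nsq 1 = 2 := by
  unfold nsq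
  simp
  norm_num

theorem nsq_word {ι : Type} (σ : ι → SL) {T : ℝ} (hT : ∀ i, nsq (σ i) ≤ T) (k : ℕ)
    (w : Fin k → ι) : nsq (wx σ k w) ≤ 2 * T ^ k := by
  induction k with
  | zero => simp [wx, nsq_one]
  | succ k ih =>
    have hw : w = Fin.cons (w 0) (fun i => w i.succ) := (Fin.cons_self_tail w).symm
    rw [hw, wx_cons]
    have h1 := nsq_mul (σ (w 0)) (wx σ k fun i => w i.succ)
    have h2 := ih (fun i => w i.succ)
    have h3 := hT (w 0)
    have h4 : 0 < nsq (σ (w 0)) := nsq_pos _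
    have h5 : 0 < nsq (wx σ k fun i => w i.succ) := nsq_pos _
    calc nsq (σ (w 0) * wx σ k fun i => w i.succ) ≤ _ := h1
      _ ≤ T * (2 * T ^ k) := by
        apply mul_le_mul h3 h2 h5.le (h4.le.trans h3)
      _ = 2 * T ^ (k + 1) := by ring

/-- The cut-off of the bad directions. -/
noncomputable def cut (R : ℝ) (g : SL) : C(K, ℝ) where
  toFun v := max 0 (min 1 (2 - 2 * (R ^ 2 * rr g v ^ 2 / nsq g)))
  continuous_toFun := by
    have h : Continuous fun v : K => rr g v := (continuous_rr g).comp continuous_subtype_val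
    fun_prop

theorem cut_nonneg (R : ℝ) (g : SL) (v : K) : 0 ≤ cut R g v := le_max_left _ _

theorem cut_le (R : ℝ) (g : SL) (v : K) : cut R g v ≤ 1 :=
  max_le zero_le_one (min_le_left _ _)

theorem cut_ne {R : ℝ} {g : SL} {v : K} (h : cut R g v ≠ 0) : R ^ 2 * rr g v ^ 2 < nsq g := by
  by_contra hc
  rw [not_lt] at hc
  apply h
  have h1 : 1 ≤ R ^ 2 * rr g v ^ 2 / nsq g := (one_le_div (nsq_pos g)).2 hc
  have h2 : min 1 (2 - 2 * (R ^ 2 * rr g v ^ 2 / nsq g)) ≤ 0 := (min_le_right _ _).trans (by linarith)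
  exact max_eq_left h2

theorem cut_lt {R : ℝ} {g : SL} {v : K} (h : cut R g v ≠ 1) : nsq g ≤ (2 * R) ^ 2 * rr g v ^ 2 := by
  by_contra hc
  rw [not_le] at hc
  apply h
  have h1 : R ^ 2 * rr g v ^ 2 / nsq g ≤ 1 / 2 := by
    rw [div_le_iff₀ (nsq_pos g)]
    nlinarith [sq_nonneg (R * rr g v)]
  have h2 : min 1 (2 - 2 * (R ^ 2 * rr g v ^ 2 / nsq g)) = 1 := min_eq_left (by linarith)
  change max 0 (min 1 (2 - 2 * (R ^ 2 * rr g v ^ 2 / nsq g))) = 1
  rw [h2]
  simp

/-- The dyadic size of `g`. -/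
noncomputable def siz (g : SL) : ℕ := Nat.log 4 ⌊nsq g⌋₊

theorem siz_lo (g : SL) : (4 : ℝ) ^ siz g ≤ nsq g := by
  have h2 := two_le_nsq g
  have h0 : ⌊nsq g⌋₊ ≠ 0 := by
    have : 0 < ⌊nsq g⌋₊ := Nat.floor_pos.2 (by linarith)
    omega
  have h1 : 4 ^ siz g ≤ ⌊nsq g⌋₊ := Nat.pow_log_le_self 4 h0
  calc (4 : ℝ) ^ siz g = ((4 ^ siz g : ℕ) : ℝ) := by push_cast; rfl
    _ ≤ (⌊nsq g⌋₊ : ℝ) := by exact_mod_cast h1
    _ ≤ nsq g := Nat.floor_le (by linarith)

theorem siz_hi (g : SL) : nsq g ≤ 4 ^ (siz g + 1) := by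
  have h1 : ⌊nsq g⌋₊ < 4 ^ (siz g + 1) := Nat.lt_pow_succ_log_self (by norm_num) _
  have h2 : nsq g < (⌊nsq g⌋₊ : ℝ) + 1 := Nat.lt_floor_add_one _
  have h3 : ((⌊nsq g⌋₊ : ℝ) + 1) ≤ ((4 ^ (siz g + 1) : ℕ) : ℝ) := by exact_mod_cast h1
  push_cast at h3
  linarith

/-- Joint weights of the word, the cell and the quality of the direction. -/
noncomputable def jq {ι : Type} (σ : ι → SL) (m : ι → ℝ) (L : C(K, ℝ) →ₗ[ℝ] ℝ) {q : ℕ}
    (φ : Fin q → C(K, ℝ)) (R : ℝ) (k : ℕ) (ω : ((Fin k → ι) × Fin q) × Bool) : ℝ :=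
  wp m k ω.1.1 * L ((φ ω.1.2).comp (act (wx σ k ω.1.1)) *
    (if ω.2 then cut R (wx σ k ω.1.1) else 1 - cut R (wx σ k ω.1.1)))

section

variable {ι : Type} [Fintype ι] {σ : ι → SL} {m : ι → ℝ} {L : C(K, ℝ) →ₗ[ℝ] ℝ} {q : ℕ}
  {φ : Fin q → C(K, ℝ)} {R : ℝ} {k : ℕ}

theorem jq_nonneg (hm : IsPr m) (hL : IsState L) (hφ : IsPart φ)
    (ω : ((Fin k → ι) × Fin q) × Bool) : 0 ≤ jq σ m L φ R k ω := by
  unfold jq
  refine mul_nonneg (wp_nonneg hm _ _) (hL.nonneg _ fun x => ?_)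
  rw [ContinuousMap.mul_apply]
  refine mul_nonneg (hφ.nonneg _ _) ?_
  split_ifs
  · exact cut_nonneg _ _ _
  · simp only [ContinuousMap.sub_apply, ContinuousMap.one_apply]
    linarith [cut_le R (wx σ k ω.1.1) x]

omit [Fintype ι] in
theorem jq_marg (ω : (Fin k → ι) × Fin q) : ∑ b, jq σ m L φ R k (ω, b) = jp σ m L φ k ω := by
  unfold jq jp
  rw [Fintype.sum_bool, ← mul_add, ← map_add]
  congr 2
  simp only [if_true, Bool.false_eq_true, if_false]
  rw [← mul_add]
  simp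

omit [Fintype ι] in
theorem jp_marg (hL : IsState L) (hφ : IsPart φ) (w : Fin k → ι) :
    ∑ a, jp σ m L φ k (w, a) = wp m k w := by
  unfold jp
  simp only
  rw [← Finset.mul_sum, sum_part hL hφ, mul_one]

theorem jq_sum (hm : IsPr m) (hL : IsState L) (hφ : IsPart φ) :
    ∑ ω, jq σ m L φ R k ω = 1 := by
  rw [Fintype.sum_prod_type]
  simp only [jq_marg]
  rw [Fintype.sum_prod_type]
  simp only [jp_marg hL hφ]
  exact wp_sum hm k

/-- Total mass of the bad directions. -/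
theorem jq_bad (hm : IsPr m) (hφ : IsPart φ) {δ : ℝ}
    (hδ : ∀ g : SL, L (cut R g) ≤ δ) :
    ∑ ω : (Fin k → ι) × Fin q, jq σ m L φ R k (ω, true) ≤ δ := by
  rw [Fintype.sum_prod_type]
  have h1 : ∀ w : Fin k → ι, ∑ a, jq σ m L φ R k ((w, a), true) ≤ wp m k w * δ := by
    intro w
    unfold jq
    simp only [if_true]
    rw [← Finset.mul_sum, ← map_sum, ← Finset.sum_mul]
    have key : ∑ a, (φ a).comp (act (wx σ k w)) = 1 := by
      ext x
      simp only [ContinuousMap.coe_sum, Finset.sum_apply, ContinuousMap.comp_apply,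
        ContinuousMap.one_apply]
      exact hφ.sum _
    rw [key, one_mul]
    exact mul_le_mul_of_nonneg_left (hδ _) (wp_nonneg hm _ _)
  calc _ ≤ ∑ w : Fin k → ι, wp m k w * δ := Finset.sum_le_sum fun w _ => h1 w
    _ = δ := by rw [← Finset.sum_mul, wp_sum hm, one_mul]

end

theorem cond_bound (hMONO : S_MONO) (hCOND : S_COND) (hLAWF : S_LAWF)
    {ι : Type} [Fintype ι] {Γ : Subgroup SL} {σ : ι → SL} {m : ι → ℝ} {L : C(K, ℝ) →ₗ[ℝ] ℝ}
    (hσ : ∀ i, σ i ∈ Γ) (hm : IsPr m) (hL : IsState L) {R : ℝ} {δ : ℝ}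
    (hδ : ∀ g : SL, L (cut R g) ≤ δ) {N : ℕ} (hN1 : 1 ≤ N)
    (hN : ∀ (j : ℕ) (u : K) (T : Finset SL),
      (∀ g ∈ T, g ∈ Γ ∧ (4 : ℝ) ^ j ≤ nsq g ∧ nsq g ≤ 4 ^ (j + 1) ∧
        ∃ v : K, nsq g ≤ (2 * R) ^ 2 * rr g v ^ 2 ∧ dist (act g v) u ≤ ((4 : ℝ) ^ j)⁻¹) →
      T.card ≤ N) {t : ℕ} (ht : ∀ i, nsq (σ i) ≤ 4 ^ t) (ht1 : 1 ≤ t) (k : ℕ) {q : ℕ}
    {φ : Fin q → C(K, ℝ)} (hφ : IsPart φ)
    (hfine : ∀ a x y, φ a x ≠ 0 → φ a y ≠ 0 → dist x y < ((4 : ℝ) ^ (t * (k + 1)))⁻¹) :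
    Hp (jp σ m L φ k) (fun ω => (wx σ k ω.1, ω.2)) - Hp (jp σ m L φ k) (fun ω => ω.2) ≤
      Real.log (2 * (t * (k + 1) + 1)) + Real.log N + k * Real.log (Fintype.card ι) * δ := by
  classical
  have hne : Nonempty ι := by
    by_contra h
    rw [not_nonempty_iff] at h
    have := hm.sum
    simp at this
  have hc1 : 1 ≤ Fintype.card ι := Fintype.card_pos
  -- sizes of words
  have hw : ∀ w : Fin k → ι, nsq (wx σ k w) ≤ 4 ^ (t * (k + 1)) := by
    intro w
    have h1 := nsq_word σ ht k w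
    calc nsq (wx σ k w) ≤ 2 * (4 ^ t) ^ k := h1
      _ ≤ 4 ^ t * (4 ^ t) ^ k := by
        apply mul_le_mul_of_nonneg_right _ (by positivity)
        calc (2 : ℝ) ≤ 4 ^ 1 := by norm_num
          _ ≤ 4 ^ t := pow_le_pow_right₀ (by norm_num) ht1
      _ = 4 ^ (t * (k + 1)) := by rw [← pow_mul, ← pow_add]; ring_nf
  have hsz : ∀ w : Fin k → ι, siz (wx σ k w) ≤ t * (k + 1) := by
    intro w
    have h1 := (siz_lo (wx σ k w)).trans (hw w)
    exact (pow_le_pow_iff_right₀ (by norm_num)).1 h1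
  set p := jq σ m L φ R k with hp
  have hnn : ∀ ω, 0 ≤ p ω := fun ω => jq_nonneg hm hL hφ ω
  have e1 : Hp p (fun ω => (wx σ k ω.1.1, ω.1.2)) = Hp (jp σ m L φ k) (fun ω => (wx σ k ω.1, ω.2)) :=
    Hp_congr hLAWF fun a => pr_fst jq_marg (fun ω => (wx σ k ω.1, ω.2)) a
  have e2 : Hp p (fun ω => ω.1.2) = Hp (jp σ m L φ k) (fun ω => ω.2) :=
    Hp_congr hLAWF fun a => pr_fst jq_marg (fun ω => ω.2) a
  rw [← e1, ← e2]
  -- first conditioning
  have s1 : Hp p (fun ω => (wx σ k ω.1.1, ω.1.2)) ≤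
      Hp p (fun ω => (wx σ k ω.1.1, (ω.1.2, siz (wx σ k ω.1.1), ω.2))) :=
    hMONO _ _ _ p (fun ω => (wx σ k ω.1.1, (ω.1.2, siz (wx σ k ω.1.1), ω.2)))
      (fun z => (z.1, z.2.1)) hnn
  have s2 := hCOND (((Fin k → ι) × Fin q) × Bool) SL (Fin q × ℕ × Bool) p
    (fun ω => wx σ k ω.1.1) (fun ω => (ω.1.2, siz (wx σ k ω.1.1), ω.2))
    (fun y => if y.2.2 then Fintype.card ι ^ k else N) hnn
    (by
      rintro ⟨a, j, b⟩
      by_cases hb : b
      · simp only [hb, if_true]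
        exact Nat.one_le_pow _ _ hc1
      · simp only [hb, Bool.false_eq_true, if_false]
        exact hN1)
    (by
      rintro ⟨a, j, b⟩ T hT
      rcases Bool.eq_false_or_eq_true b with hb | hb
      · subst hb
        simp only [if_true]
        have h1 : T ⊆ Finset.univ.image (wx σ k) := by
          intro x hx
          obtain ⟨ω, h1, -⟩ := hT x hx
          exact Finset.mem_image.2 ⟨ω.1.1, Finset.mem_univ _, h1⟩
        calc T.card ≤ (Finset.univ.image (wx σ k)).card := Finset.card_le_card h1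
          _ ≤ (Finset.univ : Finset (Fin k → ι)).card := Finset.card_image_le
          _ = Fintype.card ι ^ k := by simp
      · subst hb
        simp only [Bool.false_eq_true, if_false]
        have hex : ∀ x ∈ T, x ∈ Γ ∧ siz x = j ∧ nsq x ≤ 4 ^ (t * (k + 1)) ∧
            ∃ v : K, nsq x ≤ (2 * R) ^ 2 * rr x v ^ 2 ∧ φ a (act x v) ≠ 0 := by
          intro x hx
          obtain ⟨ω, h1, h2, h3⟩ := hT x hx
          simp only [Prod.mk.injEq] at h2
          obtain ⟨h2a, h2j, h2b⟩ := h2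
          refine ⟨?_, by rw [← h1]; exact h2j, by rw [← h1]; exact hw _, ?_⟩
          · rw [← h1]
            unfold wx
            refine Subgroup.list_prod_mem _ fun y hy => ?_
            rw [List.mem_ofFn] at hy
            obtain ⟨i, rfl⟩ := hy
            exact hσ _
          · rw [hp] at h3
            unfold jq at h3
            rw [h1, h2a, h2b] at h3
            simp only [Bool.false_eq_true, if_false] at h3
            by_contra hcon
            push Not at hcon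
            apply h3
            have hz : (φ a).comp (act x) * (1 - cut R x) = 0 := by
              ext v
              simp only [ContinuousMap.mul_apply, ContinuousMap.comp_apply,
                ContinuousMap.sub_apply, ContinuousMap.one_apply, ContinuousMap.zero_apply]
              by_cases hv : cut R x v = 1
              · rw [hv]; ring
              · rw [hcon v (cut_lt hv)]; ring
            rw [hz, map_zero, mul_zero]
        rcases T.eq_empty_or_nonempty with hT0 | ⟨x0, hx0⟩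
        · rw [hT0]; simp
        · obtain ⟨-, -, -, v0, -, hv0⟩ := hex x0 hx0
          refine hN j (act x0 v0) T fun g hg => ?_
          obtain ⟨h1, h2, h3, v, h4, h5⟩ := hex g hg
          have h6 := siz_lo g
          have h7 := siz_hi g
          rw [h2] at h6 h7
          refine ⟨h1, h6, h7, v, h4, ?_⟩
          have h8 := (hfine a _ _ h5 hv0).le
          refine h8.trans ?_
          have h9 : (4 : ℝ) ^ j ≤ 4 ^ (t * (k + 1)) := h6.trans h3
          exact inv_anti₀ (by positivity) h9)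
  -- second conditioning
  have s3 := hCOND (((Fin k → ι) × Fin q) × Bool) (ℕ × Bool) (Fin q) p
    (fun ω => (siz (wx σ k ω.1.1), ω.2)) (fun ω => ω.1.2)
    (fun _ => 2 * (t * (k + 1) + 1)) hnn (fun _ => by omega)
    (by
      intro a T hT
      have h1 : T ⊆ Finset.range (t * (k + 1) + 1) ×ˢ (Finset.univ : Finset Bool) := by
        intro x hx
        obtain ⟨ω, h1, -⟩ := hT x hx
        rw [← h1]
        simp only [Finset.mem_product, Finset.mem_range, Finset.mem_univ, and_true]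
        have := hsz ω.1.1
        omega
      calc T.card ≤ _ := Finset.card_le_card h1
        _ = 2 * (t * (k + 1) + 1) := by
          rw [Finset.card_product, Finset.card_range, Finset.card_univ, Fintype.card_bool]
          ring)
  have e3 : Hp p (fun ω => ((siz (wx σ k ω.1.1), ω.2), ω.1.2)) =
      Hp p (fun ω => (ω.1.2, siz (wx σ k ω.1.1), ω.2)) := by
    have hinj : Function.Injective (fun z : Fin q × ℕ × Bool => (z.2, z.1)) := by
      rintro ⟨a, b⟩ ⟨c, d⟩ h
      simp only [Prod.mk.injEq] at h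
      rw [Prod.mk.injEq]
      exact ⟨h.2, h.1⟩
    exact Hp_inj (p := p) (X := fun ω => (ω.1.2, siz (wx σ k ω.1.1), ω.2)) hinj
  rw [e3] at s3
  have hsum : ∑ ω, p ω = 1 := jq_sum hm hL hφ
  have b3 : ∑ ω, p ω * Real.log ((2 * (t * (k + 1) + 1) : ℕ) : ℝ) =
      Real.log (2 * (t * (k + 1) + 1)) := by
    rw [← Finset.sum_mul, hsum, one_mul]
    push_cast
    ring_nf
  rw [b3] at s3
  have hlogc : 0 ≤ Real.log (Fintype.card ι) := Real.log_nonneg (by exact_mod_cast hc1)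
  have hlogN : 0 ≤ Real.log N := Real.log_nonneg (by exact_mod_cast hN1)
  have b2 : ∑ ω, p ω * Real.log
      (((fun y : Fin q × ℕ × Bool => if y.2.2 then Fintype.card ι ^ k else N)
        (ω.1.2, siz (wx σ k ω.1.1), ω.2) : ℕ) : ℝ) ≤
      Real.log N + k * Real.log (Fintype.card ι) * δ := by
    rw [Fintype.sum_prod_type]
    have h1 : ∀ ω : (Fin k → ι) × Fin q, ∑ b, p (ω, b) * Real.log
        (((fun y : Fin q × ℕ × Bool => if y.2.2 then Fintype.card ι ^ k else N)
          (ω.2, siz (wx σ k ω.1), b) : ℕ) : ℝ) =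
        p (ω, true) * (k * Real.log (Fintype.card ι)) + p (ω, false) * Real.log N := by
      intro ω
      rw [Fintype.sum_bool]
      simp only [if_true, Bool.false_eq_true, if_false]
      push_cast
      rw [Real.log_pow]
    rw [Finset.sum_congr rfl fun ω _ => h1 ω, Finset.sum_add_distrib, ← Finset.sum_mul,
      ← Finset.sum_mul]
    have h2 : ∑ ω : (Fin k → ι) × Fin q, p (ω, true) ≤ δ := jq_bad hm hφ hδ
    have h3 : ∑ ω : (Fin k → ι) × Fin q, p (ω, false) ≤ 1 := by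
      have h5 : ∑ ω : (Fin k → ι) × Fin q, ∑ b, p (ω, b) = 1 := by
        rw [← hsum, Fintype.sum_prod_type (f := p)]
      rw [← h5]
      refine Finset.sum_le_sum fun ω _ => ?_
      rw [Fintype.sum_bool]
      linarith [hnn (ω, true)]
    have h4 : 0 ≤ (k : ℝ) * Real.log (Fintype.card ι) := mul_nonneg (Nat.cast_nonneg k) hlogc
    nlinarith [mul_le_mul_of_nonneg_right h2 h4, mul_le_mul_of_nonneg_right h3 hlogN]
  linarith [s1, s2, s3, b2]

theorem t_PA (hMONO : S_MONO) (hCOND : S_COND) (hLAWF : S_LAWF) (hWALK : S_WALK)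
    (hCOUNT : S_COUNT) (hPOU : S_POU) (hSMALL : S_SMALL) : S_PA := by
  classical
  intro ι _ Γ σ m L hΓ hσ hm hL hNA ε hε
  have hne : Nonempty ι := by
    by_contra h
    rw [not_nonempty_iff] at h
    have := hm.sum
    simp at this
  have hc1 : 1 ≤ Fintype.card ι := Fintype.card_pos
  have hlogc : 0 ≤ Real.log (Fintype.card ι) := Real.log_nonneg (by exact_mod_cast hc1)
  set δ : ℝ := ε / (4 * (Real.log (Fintype.card ι) + 1)) with hδdef
  have hδ : 0 < δ := by positivity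
  obtain ⟨R, hR, hbad⟩ := hSMALL L hL hNA δ hδ
  have hbad' : ∀ g : SL, L (cut R g) ≤ δ := fun g =>
    hbad g (cut R g) (fun y => ⟨cut_nonneg _ _ _, cut_le _ _ _⟩) (fun y hy => cut_ne hy)
  obtain ⟨N, hN1, hN⟩ := hCOUNT Γ hΓ (2 * R) (by linarith)
  obtain ⟨t, ht⟩ : ∃ t : ℕ, (∀ i, nsq (σ i) ≤ 4 ^ t) ∧ 1 ≤ t := by
    obtain ⟨M, hM⟩ : ∃ M : ℝ, ∀ i, nsq (σ i) ≤ M :=
      ⟨∑ i, nsq (σ i), fun i => Finset.single_le_sum (f := fun i => nsq (σ i))
        (fun j _ => (nsq_pos _).le) (Finset.mem_univ i)⟩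
    obtain ⟨t, ht⟩ := pow_unbounded_of_one_lt M (by norm_num : (1 : ℝ) < 4)
    refine ⟨t + 1, fun i => (hM i).trans (ht.le.trans ?_), by omega⟩
    exact pow_le_pow_right₀ (by norm_num) (by omega)
  -- choose `k`
  have hlim : Tendsto (fun k : ℕ => (Real.log (2 * (t * (k + 1) + 1)) + Real.log N) / k) atTop
      (𝓝 0) := by
    have h1 : Tendsto (fun k : ℕ => Real.log (2 * (t * ((k : ℝ) + 1) + 1)) / k) atTop (𝓝 0) := by
      have h2 : Tendsto (fun x : ℝ => Real.log x / x) atTop (𝓝 0) :=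
        Real.isLittleO_log_id_atTop.tendsto_div_nhds_zero
      have h3 : Tendsto (fun k : ℕ => 2 * (t * ((k : ℝ) + 1) + 1)) atTop atTop := by
        have ht0 : (0 : ℝ) < 2 * t := by
          have : (1 : ℝ) ≤ t := by exact_mod_cast ht.2
          linarith
        have h4a : Tendsto (fun k : ℕ => 2 * (t : ℝ) * (k : ℝ)) atTop atTop :=
          (tendsto_natCast_atTop_atTop (R := ℝ)).const_mul_atTop ht0
        have h4 : Tendsto (fun k : ℕ => 2 * (t : ℝ) * (k : ℝ) + (2 * (t : ℝ) + 2)) atTop atTop :=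
          tendsto_atTop_add_const_right _ _ h4a
        refine h4.congr fun k => ?_
        ring
      have h5 := h2.comp h3
      have h6 : Tendsto (fun k : ℕ => (2 * (t * ((k : ℝ) + 1) + 1)) / k) atTop (𝓝 (2 * t)) := by
        have h7 : Tendsto (fun k : ℕ => 2 * (t : ℝ) + (2 * t + 2) / (k : ℝ)) atTop
            (𝓝 (2 * t + 0)) :=
          tendsto_const_nhds.add (tendsto_const_div_atTop_nhds_zero_nat _)
        rw [add_zero] at h7
        refine h7.congr' ?_
        filter_upwards [eventually_ge_atTop 1] with k hk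
        have : (k : ℝ) ≠ 0 := by
          have : (1 : ℝ) ≤ k := by exact_mod_cast hk
          linarith
        field_simp
        ring
      have h8 := h5.mul h6
      rw [zero_mul] at h8
      refine h8.congr' ?_
      filter_upwards [eventually_ge_atTop 1] with k hk
      have hk0 : (0 : ℝ) < k := by
        have : (1 : ℝ) ≤ k := by exact_mod_cast hk
        linarith
      have hpos : (0 : ℝ) < 2 * (t * ((k : ℝ) + 1) + 1) := by positivity
      simp only [Function.comp]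
      field_simp
    have h9 : Tendsto (fun k : ℕ => Real.log N / (k : ℝ)) atTop (𝓝 0) :=
      tendsto_const_div_atTop_nhds_zero_nat _
    have h10 := h1.add h9
    rw [add_zero] at h10
    refine h10.congr fun k => ?_
    rw [add_div]
  have hev := (hlim.eventually (gt_mem_nhds (show (0 : ℝ) < ε / 2 by positivity))).and
    (eventually_ge_atTop 1)
  obtain ⟨k, hk1, hk2⟩ := hev.exists
  have hk0 : (0 : ℝ) < k := by exact_mod_cast hk2
  obtain ⟨q, φ, hφ, hfine⟩ := hPOU (((4 : ℝ) ^ (t * (k + 1)))⁻¹) (by positivity)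
  refine ⟨k, q, φ, hk2, hφ, ?_⟩
  have hb := cond_bound hMONO hCOND hLAWF hσ hm hL hbad' hN1 hN ht.1 ht.2 k hφ hfine
  have e1 : Hp (jp σ m L φ k) (fun ω => wx σ k ω.1) = Hw σ m k :=
    Hp_congr hLAWF fun a => pr_fst (jp_marg hL hφ) (wx σ k) a
  have hH := (hWALK ι SL σ m hm).2.2.2.1 k
  have h1 : Real.log (2 * (t * (k + 1) + 1)) + Real.log N < ε / 2 * k := (div_lt_iff₀ hk0).1 hk1
  have h2 : (k : ℝ) * Real.log (Fintype.card ι) * δ ≤ k * (ε / 4) := by
    rw [mul_assoc]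
    apply mul_le_mul_of_nonneg_left _ hk0.le
    rw [hδdef, mul_div_assoc']
    rw [div_le_div_iff₀ (by positivity) (by norm_num)]
    nlinarith
  unfold MI
  rw [e1]
  nlinarith

end Pool.Agent.K1H32.FE
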