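import Pool.Agent.K1H32.FE.Asm
import Pool.Agent.K1H32.FE.Pa
import Pool.Agent.K1H32.FE.Cex
import Pool.Agent.K1H26.FE.Lsc
import Pool.Agent.K1H26.FE.Lstat
import Pool.Agent.K1H39.FE.Geom
import Pool.Agent.K1H61.FE.Atom
import Pool.Agent.K1H61.FE.Stt
import Pool.Agent.K1H65.FE.Upp
import Pool.Agent.K1H67.FE.Act
import Pool.Agent.K1H67.FE.Count
import Pool.Agent.K1H67.FE.Poly
import Pool.Agent.K1H67.FE.Pou
import Pool.Agent.K1H96.FE.Eveq
import Pool.Agent.K1H96.FE.Vab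

/-!
# Random walks on geometrically converging Fuchsian groups
-/

set_option autoImplicit false

open Filter Topology

namespace Pool.Agent.K1H32.FE

theorem h_PB : S_PB :=
  t_PB K1H78.FE.t_LAWF K1H78.FE.t_SUBM K1H78.FE.t_MARK K1H78.FE.t_PAIR K1H78.FE.t_WALK
    K1H67.FE.t_ACT

theorem h_PA : S_PA :=
  t_PA K1H78.FE.t_MONO K1H78.FE.t_COND K1H78.FE.t_LAWF K1H78.FE.t_WALK
    (K1H67.FE.t_COUNT K1H39.FE.t_GEOM) K1H67.FE.t_POU (K1H67.FE.t_SMALL K1H39.FE.t_ARC)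

theorem center_bound : ∃ c : ℕ, ∀ T : Finset SL,
    (∀ x ∈ T, ∀ y ∈ T, QuotientGroup.mk' (Subgroup.center SL) x =
      QuotientGroup.mk' (Subgroup.center SL) y) → T.card ≤ c := by
  classical
  refine ⟨2, fun T hT => ?_⟩
  rcases T.eq_empty_or_nonempty with h | ⟨x, hx⟩
  · simp [h]
  · have h1 : T ⊆ {x, -x} := by
      intro y hy
      have h2 : x⁻¹ * y ∈ Subgroup.center SL := QuotientGroup.eq.1 (hT x hx y hy)
      rw [K1H12.FE.center_iff] at h2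
      rw [Finset.mem_insert, Finset.mem_singleton]
      rcases h2 with h2 | h2
      · left
        exact (inv_mul_eq_one.1 h2).symm
      · right
        rw [inv_mul_eq_iff_eq_mul] at h2
        rw [h2, mul_neg, mul_one]
    exact (Finset.card_le_card h1).trans (Finset.card_le_two)

/-- The two entropies of the problem agree with those of the lifted walks. -/
theorem avez_lift {S : Finset PSL} {μ : PSL → ℝ} (h : IsProb S μ) (τ : S → SL)
    (hτ : ∀ i, (τ i : PSL) = i) : avez S μ = hav τ (fun i : S => μ i) := by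
  have hm : IsPr (fun i : S => μ i) := by
    refine ⟨fun i => h.nonneg _, ?_⟩
    rw [← h.sum]
    exact Finset.sum_coe_sort S μ
  rw [avez_eq S μ h]
  have h1 := K1H78.FE.t_KER S SL PSL (QuotientGroup.mk' (Subgroup.center SL)) τ
    (fun i : S => μ i) hm center_bound
  rw [← h1]
  congr 1
  funext i
  exact (hτ i).symm

theorem main_low {Γn : ℕ → Subgroup PSL} {Γ : Subgroup PSL} {Sn : ℕ → Finset PSL}
    {S : Finset PSL} {μn : ℕ → PSL → ℝ} {μ : PSL → ℝ} (hD : Data Γn Γ Sn S μn μ) {ε : ℝ}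
    (hε : 0 < ε) : ∀ᶠ n in atTop, avez S μ - ε ≤ avez (Sn n) (μn n) := by
  obtain ⟨Γn', Γ', σ, τ, e, hσ, hτ, hC⟩ := K1H12.FE.t_LIFT Γn Γ Sn S μn μ hD
  have h := lsc K1H67.FE.t_ACT (K1H96.FE.t_VAB K1H67.FE.t_ACT)
    (K1H67.FE.t_POLY K1H78.FE.t_WALK K1H78.FE.t_LAWF) K1H61.FE.t_STAT K1H61.FE.t_ULIM
    (K1H26.FE.t_LSTAT K1H67.FE.t_ACT) (K1H61.FE.t_ATOM K1H67.FE.t_ACT) h_PA h_PB
    (K1H26.FE.t_LSC K1H67.FE.t_ACT K1H96.FE.Eveq.t_EVEQ K1H78.FE.t_MONO K1H78.FE.t_SUBM K1H78.FE.t_LAWF)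
    K1H78.FE.t_WALK hC hε
  filter_upwards [h] with n hn
  rw [avez_lift hD.prob σ hσ, avez_lift (hD.prob_n n) (τ n) (hτ n)]
  exact hn

theorem main_up {Γn : ℕ → Subgroup PSL} {Γ : Subgroup PSL} {Sn : ℕ → Finset PSL}
    {S : Finset PSL} {μn : ℕ → PSL → ℝ} {μ : PSL → ℝ} (hD : Data Γn Γ Sn S μn μ) {M : ℕ}
    (hM : ∀ n, (Sn n).card ≤ M) {ε : ℝ} (hε : 0 < ε) :
    ∀ᶠ n in atTop, avez (Sn n) (μn n) ≤ avez S μ + ε := by
  obtain ⟨Γn', Γ', σ, τ, e, hσ, hτ, hC⟩ := K1H12.FE.t_LIFT Γn Γ Sn S μn μ hD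
  have h := usc (K1H65.FE.t_UPP K1H96.FE.Eveq.t_EVEQ K1H78.FE.t_MONO K1H78.FE.t_COND K1H78.FE.t_LAWF)
    K1H78.FE.t_WALK hC (M := M) (fun n => by simpa using hM n) hε
  filter_upwards [h] with n hn
  rw [avez_lift hD.prob σ hσ, avez_lift (hD.prob_n n) (τ n) (hτ n)]
  exact hn

theorem main_lim {Γn : ℕ → Subgroup PSL} {Γ : Subgroup PSL} {Sn : ℕ → Finset PSL}
    {S : Finset PSL} {μn : ℕ → PSL → ℝ} {μ : PSL → ℝ} (hD : Data Γn Γ Sn S μn μ) {M : ℕ}
    (hM : ∀ n, (Sn n).card ≤ M) :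
    Tendsto (fun n => avez (Sn n) (μn n)) atTop (𝓝 (avez S μ)) := by
  rw [Metric.tendsto_nhds]
  intro ε hε
  filter_upwards [main_low hD (half_pos hε), main_up hD hM (half_pos hε)] with n h1 h2
  rw [Real.dist_eq, abs_lt]
  constructor <;> linarith

/-- The counterexample, with measures of full support. -/
theorem main_cex : ∃ (Γ : Subgroup PSL) (Sn : ℕ → Finset PSL) (S : Finset PSL)
    (μn : ℕ → PSL → ℝ) (μ : PSL → ℝ), Data (fun _ => Γ) Γ Sn S μn μ ∧ FiniteCovolume Γ ∧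
      (∀ g ∈ S, 0 < μ g) ∧ (∀ n, ∀ g ∈ Sn n, 0 < μn n g) ∧
      Tendsto (fun n => avez (Sn n) (μn n)) atTop atTop := by
  classical
  refine ⟨modPSL, exS, exS0, exμ, exμ0, ex_data, K1H92.FE.t_MOD.2, ?_, ?_, ?_⟩
  · intro g hg
    unfold exS0 at hg
    obtain ⟨b, -, rfl⟩ := Finset.mem_image.1 hg
    have e0 : exμ0 (wd [b]) = 1 / 2 := pr_inj_val (fun _ : Bool => (1 / 2 : ℝ)) short_inj b
    rw [e0]
    norm_num
  · intro n g hg
    unfold exS at hg
    obtain ⟨i, -, rfl⟩ := Finset.mem_image.1 hg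
    have e1 : exμ n (lt n i) = wt n i := pr_inj_val (wt n) (lt_inj n) i
    rw [e1]
    have h2 : (0 : ℝ) < (n : ℝ) + 2 := by positivity
    have h3 : 1 / ((n : ℝ) + 2) < 1 := by
      rw [div_lt_one h2]
      linarith [Nat.cast_nonneg (α := ℝ) n]
    rcases i with b | w
    · simp only [wt, Sum.elim_inl]
      linarith
    · simp only [wt, Sum.elim_inr]
      positivity
  · refine tendsto_atTop_mono ex_avez ?_
    have h6 : Tendsto (fun n : ℕ => (n : ℝ) + 2) atTop atTop :=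
      tendsto_atTop_add_const_right _ _ tendsto_natCast_atTop_atTop
    exact h6.atTop_mul_const (Real.log_pos (by norm_num))

theorem main_exists {G : Type} [Group G] (S : Finset G) (μ : G → ℝ) (h : IsProb S μ) :
    Tendsto (fun k : ℕ => shannon (law S μ k) / k) atTop (𝓝 (avez S μ)) := by
  rw [avez_eq S μ h]
  exact avez_tendsto S μ h

end Pool.Agent.K1H32.FE
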