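import Pool.Agent.K1H32.FE.Stm

/-!
# The information on the boundary point is at most `k h`
-/

set_option autoImplicit false

open Filter Topology

namespace Pool.Agent.K1H32.FE

section General

variable {Ω Ω' α : Type} [Fintype Ω] [Fintype Ω']

/-- The entropy depends only on the law. -/
theorem Hp_congr (hL : S_LAWF) {p : Ω → ℝ} {p' : Ω' → ℝ} {X : Ω → α} {X' : Ω' → α}
    (h : ∀ a, pr p X a = pr p' X' a) : Hp p X = Hp p' X' := by
  classical
  rw [hL Ω α p X (Finset.univ.image X ∪ Finset.univ.image X') (fun ω _ => by simp),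
    hL Ω' α p' X' (Finset.univ.image X ∪ Finset.univ.image X') (fun ω _ => by simp)]
  exact Finset.sum_congr rfl fun a _ => by rw [h]

/-- Marginal of the first factor. -/
theorem pr_fst {p : Ω × Ω' → ℝ} {p₁ : Ω → ℝ} (h : ∀ ω, ∑ ω', p (ω, ω') = p₁ ω) (X : Ω → α) (a : α) :
    pr p (fun ω => X ω.1) a = pr p₁ X a := by
  classical
  unfold pr
  rw [Fintype.sum_prod_type]
  refine Finset.sum_congr rfl fun ω _ => ?_
  by_cases hx : X ω = a
  · simp [hx, h]
  · simp [hx]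

/-- Marginal over the middle factor. -/
theorem pr_mid {Ω₁ Ω₂ Ω₃ : Type} [Fintype Ω₁] [Fintype Ω₂] [Fintype Ω₃]
    {p : (Ω₁ × Ω₂) × Ω₃ → ℝ} {p₁ : Ω₁ × Ω₃ → ℝ} (h : ∀ x z, ∑ y, p ((x, y), z) = p₁ (x, z))
    (X : Ω₁ → Ω₃ → α) (a : α) :
    pr p (fun ω => X ω.1.1 ω.2) a = pr p₁ (fun ω => X ω.1 ω.2) a := by
  classical
  unfold pr
  rw [Fintype.sum_prod_type, Fintype.sum_prod_type, Fintype.sum_prod_type]
  refine Finset.sum_congr rfl fun x _ => ?_
  rw [Finset.sum_comm]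
  refine Finset.sum_congr rfl fun z _ => ?_
  by_cases hx : X x z = a
  · simp [hx, h]
  · simp [hx]

/-- Injective relabelling. -/
theorem pr_inj {β : Type} {p : Ω → ℝ} {X : Ω → α} {f : α → β} (hf : Function.Injective f) (a : α) :
    pr p (fun ω => f (X ω)) (f a) = pr p X a := by
  classical
  unfold pr
  exact Finset.sum_congr rfl fun ω _ => by simp [hf.eq_iff]

theorem Hp_inj {β : Type} {p : Ω → ℝ} {X : Ω → α} {f : α → β} (hf : Function.Injective f) :
    Hp p (fun ω => f (X ω)) = Hp p X := by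
  classical
  unfold Hp
  have h1 : Finset.univ.image (fun ω => f (X ω)) = (Finset.univ.image X).image f := by
    rw [Finset.image_image]; rfl
  rw [h1, Finset.sum_image (fun x _ y _ h => hf h)]
  exact Finset.sum_congr rfl fun a _ => by rw [pr_inj hf]

end General

section Words

variable {ι G : Type} [Group G]

theorem wp_cons (m : ι → ℝ) (j : ℕ) (i : ι) (w : Fin j → ι) :
    wp m (j + 1) (Fin.cons i w : Fin (j + 1) → ι) = m i * wp m j w := by
  unfold wp
  rw [Fin.prod_univ_succ]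
  simp

theorem wx_cons (σ : ι → G) (j : ℕ) (i : ι) (w : Fin j → ι) :
    wx σ (j + 1) (Fin.cons i w : Fin (j + 1) → ι) = σ i * wx σ j w := by
  unfold wx
  rw [List.ofFn_succ, List.prod_cons]
  simp

theorem sum_cons [Fintype ι] {A : Type} [AddCommMonoid A] (j : ℕ) (F : (Fin (j + 1) → ι) → A) :
    ∑ w, F w = ∑ i, ∑ w : Fin j → ι, F (Fin.cons i w : Fin (j + 1) → ι) := by
  rw [← (Fin.consEquiv (fun _ : Fin (j + 1) => ι)).sum_comp F, Fintype.sum_prod_type]
  rfl

theorem wp_nonneg {m : ι → ℝ} [Fintype ι] (hm : IsPr m) (k : ℕ) (w : Fin k → ι) : 0 ≤ wp m k w :=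
  Finset.prod_nonneg fun _ _ => hm.nonneg _

theorem wp_sum {m : ι → ℝ} [Fintype ι] (hm : IsPr m) (k : ℕ) : ∑ w : Fin k → ι, wp m k w = 1 := by
  induction k with
  | zero => simp [wp]
  | succ k ih =>
    rw [sum_cons]
    simp only [wp_cons, ← Finset.mul_sum, ih, mul_one]
    exact hm.sum

end Words

section Stationary

variable {ι : Type} [Fintype ι]

theorem stat_iter (hAct : S_ACT) {σ : ι → SL} {m : ι → ℝ} {L : C(K, ℝ) →ₗ[ℝ] ℝ}
    (hS : Stat σ m L) (j : ℕ) (f : C(K, ℝ)) :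
    ∑ w : Fin j → ι, wp m j w * L (f.comp (act (wx σ j w))) = L f := by
  induction j generalizing f with
  | zero =>
    simp [wp, wx, hAct.2.1]
  | succ j ih =>
    rw [sum_cons, hS f]
    refine Finset.sum_congr rfl fun i _ => ?_
    rw [← ih (f.comp (act (σ i))), Finset.mul_sum]
    refine Finset.sum_congr rfl fun w _ => ?_
    rw [wp_cons, wx_cons, hAct.1, mul_assoc]
    rfl

theorem sum_part {L : C(K, ℝ) →ₗ[ℝ] ℝ} (hL : IsState L) {q : ℕ} {φ : Fin q → C(K, ℝ)}
    (hφ : IsPart φ) (g : SL) : ∑ a, L ((φ a).comp (act g)) = 1 := by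
  have key : ∑ a, (φ a).comp (act g) = 1 := by
    ext x
    simp only [ContinuousMap.coe_sum, Finset.sum_apply, ContinuousMap.comp_apply,
      ContinuousMap.one_apply]
    exact hφ.sum _
  rw [← map_sum, key, hL.one]

theorem part_nonneg {L : C(K, ℝ) →ₗ[ℝ] ℝ} (hL : IsState L) {q : ℕ} {φ : Fin q → C(K, ℝ)}
    (hφ : IsPart φ) (g : SL) (a : Fin q) : 0 ≤ L ((φ a).comp (act g)) :=
  hL.nonneg _ fun _ => hφ.nonneg a _

end Stationary

theorem t_PB (hL : S_LAWF) (hSUBM : S_SUBM) (hMARK : S_MARK) (hPAIR : S_PAIR) (hWALK : S_WALK)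
    (hAct : S_ACT) : S_PB := by
  classical
  intro ι _ σ m L q φ k hm hLs hS hφ
  refine (hWALK ι SL σ m hm).2.2.2.2 k _ fun j => ?_
  obtain ⟨hP1, hP2, hP3⟩ := hPAIR ι SL σ m k j hm
  set p₂ : (Fin k → ι) × (Fin j → ι) → ℝ := fun ω => wp m k ω.1 * wp m j ω.2 with hp₂
  set p' : ((Fin k → ι) × (Fin j → ι)) × Fin q → ℝ := fun ω =>
    p₂ ω.1 * L ((φ ω.2).comp (act (wx σ k ω.1.1 * wx σ j ω.1.2))) with hp'
  have hnn : ∀ ω, 0 ≤ p' ω := fun ω =>
    mul_nonneg (mul_nonneg (wp_nonneg hm _ _) (wp_nonneg hm _ _)) (part_nonneg hLs hφ _ _)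
  -- marginals
  have m1 : ∀ ω, ∑ a, p' (ω, a) = p₂ ω := by
    intro ω
    simp only [hp']
    rw [← Finset.mul_sum, sum_part hLs hφ, mul_one]
  have m2 : ∀ x z, ∑ y, p' ((x, y), z) = jp σ m L φ k (x, z) := by
    intro x z
    simp only [hp', hp₂, jp]
    have := stat_iter hAct hS j ((φ z).comp (act (wx σ k x)))
    rw [← this, Finset.mul_sum]
    refine Finset.sum_congr rfl fun y _ => ?_
    rw [hAct.1, mul_assoc]
    rfl
  have e1 : Hp p' (fun ω => wx σ k ω.1.1) = Hw σ m k := by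
    rw [← hP3]
    exact Hp_congr hL fun a => pr_fst m1 (fun ω => wx σ k ω.1) a
  have e1' : Hp p' (fun ω => wx σ k ω.1.1) = Hp (jp σ m L φ k) (fun ω => wx σ k ω.1) :=
    Hp_congr hL fun a => pr_mid m2 (fun x _ => wx σ k x) a
  have e2 : Hp p' (fun ω => ω.2) = Hp (jp σ m L φ k) (fun ω => ω.2) :=
    Hp_congr hL fun a => pr_mid m2 (fun _ z => z) a
  have e3 : Hp p' (fun ω => (wx σ k ω.1.1, ω.2)) = Hp (jp σ m L φ k) (fun ω => (wx σ k ω.1, ω.2)) :=
    Hp_congr hL fun a => pr_mid m2 (fun x z => (wx σ k x, z)) a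
  have e4 : Hp p' (fun ω => wx σ k ω.1.1 * wx σ j ω.1.2) = Hw σ m (k + j) := by
    rw [← hP2]
    exact Hp_congr hL fun a => pr_fst m1 (fun ω => wx σ k ω.1 * wx σ j ω.2) a
  have e5 : Hp p' (fun ω => (wx σ k ω.1.1, wx σ k ω.1.1 * wx σ j ω.1.2)) =
      Hw σ m k + Hw σ m j := by
    rw [← hP1]
    have hinj : Function.Injective (fun x : SL × SL => (x.1, x.1 * x.2)) := by
      rintro ⟨a, b⟩ ⟨c, d⟩ h
      simp only [Prod.mk.injEq] at h
      obtain ⟨rfl, h⟩ := h
      simpa using h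
    have := Hp_inj (p := p₂) (X := fun ω => (wx σ k ω.1, wx σ j ω.2)) hinj
    rw [← this]
    exact Hp_congr hL fun a =>
      pr_fst m1 (fun ω => (wx σ k ω.1, wx σ k ω.1 * wx σ j ω.2)) a
  -- the Markov property
  have hM := hMARK (((Fin k → ι) × (Fin j → ι)) × Fin q) SL SL (Fin q) p'
    (fun ω => wx σ k ω.1.1) (fun ω => wx σ k ω.1.1 * wx σ j ω.1.2) (fun ω => ω.2)
    (fun v a => L ((φ a).comp (act v))) hnn (by
      intro x u a
      rw [pr_fst m1 (fun ω => (wx σ k ω.1, wx σ k ω.1 * wx σ j ω.2)) (x, u)]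
      unfold pr
      rw [Fintype.sum_prod_type, Finset.sum_mul]
      refine Finset.sum_congr rfl fun ω _ => ?_
      by_cases h1 : (wx σ k ω.1, wx σ k ω.1 * wx σ j ω.2) = (x, u)
      · have h2 : wx σ k ω.1 = x := (Prod.mk.injEq _ _ _ _ ▸ h1).1
        have h3 : wx σ k ω.1 * wx σ j ω.2 = u := (Prod.mk.injEq _ _ _ _ ▸ h1).2
        rw [if_pos h1]
        rw [Finset.sum_eq_single a]
        · rw [if_pos (show (wx σ k ω.1, wx σ k ω.1 * wx σ j ω.2, a) = (x, u, a) by rw [h3, h2])]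
          simp only [hp']
          rw [h3]
        · intro b _ hb
          rw [if_neg]
          intro h
          simp only [Prod.mk.injEq] at h
          exact hb h.2.2
        · intro h
          exact absurd (Finset.mem_univ _) h
      · rw [if_neg h1, zero_mul]
        refine Finset.sum_eq_zero fun b _ => ?_
        rw [if_neg]
        intro h
        simp only [Prod.mk.injEq] at h
        exact h1 (by rw [Prod.mk.injEq]; exact ⟨h.1, h.2.1⟩))
  have hSub := hSUBM (((Fin k → ι) × (Fin j → ι)) × Fin q) SL SL (Fin q) p'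
    (fun ω => wx σ k ω.1.1) (fun ω => wx σ k ω.1.1 * wx σ j ω.1.2) (fun ω => ω.2) hnn
  unfold MI
  rw [← e1', ← e2, ← e3, e1]
  rw [e4, e5] at hM
  linarith

end Pool.Agent.K1H32.FE
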