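import Pool.Agent.K1H32.FE.Core

/-!
# Random walks on Fuchsian groups: statements of the pieces
-/

set_option autoImplicit false

open Filter Topology MeasureTheory

namespace Pool.Agent.K1H32.FE

/-! ### Entropy of random variables on finite weighted spaces -/

/-- `H(f(X)) <= H(X)`. -/
def S_MONO : Prop :=
  ∀ (Ω α β : Type) [Fintype Ω] (p : Ω → ℝ) (X : Ω → α) (f : α → β), (∀ ω, 0 ≤ p ω) →
    Hp p (fun ω => f (X ω)) ≤ Hp p X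

/-- Submodularity `H(X,Y,Z) + H(Z) <= H(X,Z) + H(Y,Z)`. -/
def S_SUBM : Prop :=
  ∀ (Ω α β γ : Type) [Fintype Ω] (p : Ω → ℝ) (X : Ω → α) (Y : Ω → β) (Z : Ω → γ),
    (∀ ω, 0 ≤ p ω) →
    Hp p (fun ω => (X ω, Y ω, Z ω)) + Hp p Z ≤
      Hp p (fun ω => (X ω, Z ω)) + Hp p (fun ω => (Y ω, Z ω))

/-- `H(X|Y) <= E log n(Y)` when `X` takes at most `n y` values on `Y = y`. -/
def S_COND : Prop :=
  ∀ (Ω α β : Type) [Fintype Ω] (p : Ω → ℝ) (X : Ω → α) (Y : Ω → β) (n : β → ℕ),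
    (∀ ω, 0 ≤ p ω) → (∀ y, 1 ≤ n y) →
    (∀ (y : β) (T : Finset α), (∀ x ∈ T, ∃ ω, X ω = x ∧ Y ω = y ∧ p ω ≠ 0) → T.card ≤ n y) →
    Hp p (fun ω => (X ω, Y ω)) - Hp p Y ≤ ∑ ω, p ω * Real.log (n (Y ω))

/-- Conditional independence of `X` and `A` given `U`. -/
def S_MARK : Prop :=
  ∀ (Ω α β γ : Type) [Fintype Ω] (p : Ω → ℝ) (X : Ω → α) (U : Ω → β) (A : Ω → γ)
    (κ : β → γ → ℝ), (∀ ω, 0 ≤ p ω) →
    (∀ x u a, pr p (fun ω => (X ω, U ω, A ω)) (x, u, a) =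
      pr p (fun ω => (X ω, U ω)) (x, u) * κ u a) →
    Hp p (fun ω => (X ω, U ω, A ω)) + Hp p U =
      Hp p (fun ω => (X ω, U ω)) + Hp p (fun ω => (U ω, A ω))

/-- The entropy is a function of the law, computed on any finite set containing the values. -/
def S_LAWF : Prop :=
  ∀ (Ω α : Type) [Fintype Ω] (p : Ω → ℝ) (X : Ω → α) (T : Finset α),
    (∀ ω, p ω ≠ 0 → X ω ∈ T) → Hp p X = ∑ a ∈ T, Real.negMulLog (pr p X a)

/-! ### Walks -/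

/-- Two independent words. -/
def S_PAIR : Prop :=
  ∀ (ι G : Type) [Fintype ι] [Group G] (σ : ι → G) (m : ι → ℝ) (k j : ℕ), IsPr m →
    Hp (fun ω : (Fin k → ι) × (Fin j → ι) => wp m k ω.1 * wp m j ω.2)
        (fun ω => (wx σ k ω.1, wx σ j ω.2)) = Hw σ m k + Hw σ m j ∧
      Hp (fun ω : (Fin k → ι) × (Fin j → ι) => wp m k ω.1 * wp m j ω.2)
        (fun ω => wx σ k ω.1 * wx σ j ω.2) = Hw σ m (k + j) ∧
      Hp (fun ω : (Fin k → ι) × (Fin j → ι) => wp m k ω.1 * wp m j ω.2)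
        (fun ω => wx σ k ω.1) = Hw σ m k

/-- Subadditivity and its consequences. -/
def S_WALK : Prop :=
  ∀ (ι G : Type) [Fintype ι] [Group G] (σ : ι → G) (m : ι → ℝ), IsPr m →
    (∀ k, 0 ≤ Hw σ m k) ∧ 0 ≤ hav σ m ∧
      Tendsto (fun k : ℕ => Hw σ m k / k) atTop (𝓝 (hav σ m)) ∧
      (∀ k : ℕ, k * hav σ m ≤ Hw σ m k) ∧
      ∀ (k : ℕ) (c : ℝ), (∀ j, c ≤ Hw σ m (k + j) - Hw σ m j) → c ≤ k * hav σ m

/-- The action. -/
def S_ACT : Prop :=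
  (∀ g h : SL, act (g * h) = (act g).comp (act h)) ∧ act 1 = ContinuousMap.id K ∧
    ∀ f : C(K, ℝ), Continuous fun g : SL => f.comp (act g)

/-- The information on the boundary point is at most `k h`. -/
def S_PB : Prop :=
  ∀ (ι : Type) [Fintype ι] (σ : ι → SL) (m : ι → ℝ) (L : C(K, ℝ) →ₗ[ℝ] ℝ) (q : ℕ)
    (φ : Fin q → C(K, ℝ)) (k : ℕ), IsPr m → IsState L → Stat σ m L → IsPart φ →
    MI σ m L φ k ≤ k * hav σ m

/-! ### Geometry -/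

/-- Elements of comparable size which send a good direction close to `u` are close together. -/
def S_GEOM : Prop :=
  ∀ R : ℝ, 1 ≤ R → ∃ C : ℝ, ∀ (s : ℝ) (u : K), 1 ≤ s → ∃ h : SL, ∀ (g : SL) (v : K),
    s ^ 2 ≤ nsq g → nsq g ≤ 4 * s ^ 2 → nsq g ≤ R ^ 2 * rr g v ^ 2 →
    dist (act g v) u ≤ (s ^ 2)⁻¹ → nsq (h⁻¹ * g) ≤ C

/-- Bounded parts of discrete groups are finite. -/
def S_FINB : Prop :=
  ∀ Γ : Subgroup SL, DiscreteTopology Γ → ∀ C : ℝ, {g : SL | g ∈ Γ ∧ nsq g ≤ C}.Finite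

/-- Count of the elements of a discrete group of given size and given image of a good direction. -/
def S_COUNT : Prop :=
  ∀ Γ : Subgroup SL, DiscreteTopology Γ → ∀ R : ℝ, 1 ≤ R → ∃ N : ℕ, 1 ≤ N ∧
    ∀ (j : ℕ) (u : K) (T : Finset SL),
      (∀ g ∈ T, g ∈ Γ ∧ (4 : ℝ) ^ j ≤ nsq g ∧ nsq g ≤ 4 ^ (j + 1) ∧
        ∃ v : K, nsq g ≤ R ^ 2 * rr g v ^ 2 ∧ dist (act g v) u ≤ ((4 : ℝ) ^ j)⁻¹) →
      T.card ≤ N

/-- Fine soft partitions exist. -/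
def S_POU : Prop :=
  ∀ δ : ℝ, 0 < δ → ∃ (q : ℕ) (φ : Fin q → C(K, ℝ)), IsPart φ ∧
    ∀ a x y, φ a x ≠ 0 → φ a y ≠ 0 → dist x y < δ

/-- Bad directions lie in two small arcs. -/
def S_ARC : Prop :=
  ∀ R : ℝ, 1 ≤ R → ∀ g : SL, ∃ x y : K, ∀ v : K, R ^ 2 * rr g v ^ 2 < nsq g →
    dist v x < 4 / R ∨ dist v y < 4 / R

/-- Bad directions have small mass. -/
def S_SMALL : Prop :=
  ∀ L : C(K, ℝ) →ₗ[ℝ] ℝ, IsState L → NoAtom L → ∀ ε : ℝ, 0 < ε → ∃ R : ℝ, 1 ≤ R ∧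
    ∀ (g : SL) (ψ : C(K, ℝ)), (∀ y, 0 ≤ ψ y ∧ ψ y ≤ 1) →
      (∀ y, ψ y ≠ 0 → R ^ 2 * rr g y ^ 2 < nsq g) → L ψ ≤ ε

/-- The boundary point determines the walk up to `o(k)`, for discrete groups. -/
def S_PA : Prop :=
  ∀ (ι : Type) [Fintype ι] (Γ : Subgroup SL) (σ : ι → SL) (m : ι → ℝ) (L : C(K, ℝ) →ₗ[ℝ] ℝ),
    DiscreteTopology Γ → (∀ i, σ i ∈ Γ) → IsPr m → IsState L → NoAtom L → ∀ ε : ℝ, 0 < ε →
    ∃ (k q : ℕ) (φ : Fin q → C(K, ℝ)), 1 ≤ k ∧ IsPart φ ∧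
      k * (hav σ m - ε) ≤ MI σ m L φ k

/-! ### Stationary states -/

/-- Existence of stationary states. -/
def S_STAT : Prop :=
  ∀ (ι : Type) [Fintype ι] (σ : ι → SL) (m : ι → ℝ), IsPr m →
    ∃ L : C(K, ℝ) →ₗ[ℝ] ℝ, IsState L ∧ Stat σ m L

/-- Limits of states along an ultrafilter. -/
def S_ULIM : Prop :=
  ∀ (U : Ultrafilter ℕ) (Ln : ℕ → (C(K, ℝ) →ₗ[ℝ] ℝ)), (∀ n, IsState (Ln n)) →
    ∃ L : C(K, ℝ) →ₗ[ℝ] ℝ, IsState L ∧ ∀ (fn : ℕ → C(K, ℝ)) (f : C(K, ℝ)),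
      Tendsto fn U (𝓝 f) → Tendsto (fun n => Ln n (fn n)) U (𝓝 (L f))

/-- The limit of stationary states is stationary. -/
def S_LSTAT : Prop :=
  ∀ (ι : Type) [Fintype ι] (Γn : ℕ → Subgroup SL) (Γ : Subgroup SL) (σ : ι → SL) (m : ι → ℝ)
    (κ : ℕ → Type) [∀ n, Fintype (κ n)] (τ : ∀ n, κ n → SL) (r : ∀ n, κ n → ℝ)
    (e : ∀ n, ι → κ n), Conv Γn Γ σ m κ τ r e →
    ∀ (U : Ultrafilter ℕ) (Ln : ℕ → (C(K, ℝ) →ₗ[ℝ] ℝ)) (L : C(K, ℝ) →ₗ[ℝ] ℝ),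
      (U : Filter ℕ) ≤ atTop → (∀ n, IsState (Ln n)) → (∀ n, Stat (τ n) (r n) (Ln n)) →
      (∀ (fn : ℕ → C(K, ℝ)) (f : C(K, ℝ)), Tendsto fn U (𝓝 f) →
        Tendsto (fun n => Ln n (fn n)) U (𝓝 (L f))) →
      Stat σ m L

/-- A stationary state has no atoms, or a finite set of directions is invariant. -/
def S_ATOM : Prop :=
  ∀ (ι : Type) [Fintype ι] (σ : ι → SL) (m : ι → ℝ) (L : C(K, ℝ) →ₗ[ℝ] ℝ), IsPr m →
    IsState L → Stat σ m L → NoAtom L ∨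
      ∃ F : Finset K, F.Nonempty ∧ ∀ i, m i ≠ 0 → ∀ x ∈ F, act (σ i)⁻¹ x ∈ F

/-- Discrete groups with a finite invariant set of directions are virtually abelian. -/
def S_VAB : Prop :=
  ∀ (Γ : Subgroup SL) (F : Finset K), DiscreteTopology Γ → F.Nonempty →
    (∀ g ∈ Γ, ∀ x ∈ F, act g x ∈ F) →
    ∃ A : Subgroup SL, A ≤ Γ ∧ (∀ a ∈ A, ∀ b ∈ A, a * b = b * a) ∧ (A.subgroupOf Γ).FiniteIndex

/-- Walks on virtually abelian groups have entropy zero. -/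
def S_POLY : Prop :=
  ∀ (ι G : Type) [Fintype ι] [Group G] (σ : ι → G) (m : ι → ℝ) (A Λ : Subgroup G), IsPr m →
    (∀ i, m i ≠ 0 → σ i ∈ Λ) → A ≤ Λ → (∀ a ∈ A, ∀ b ∈ A, a * b = b * a) →
    (A.subgroupOf Λ).FiniteIndex → hav σ m ≤ 0

/-! ### Convergence -/

/-- Equalities between words are eventually the same for the `n`-th walk and for the limit. -/
def S_EVEQ : Prop :=
  ∀ (ι : Type) [Fintype ι] (Γn : ℕ → Subgroup SL) (Γ : Subgroup SL) (σ : ι → SL) (m : ι → ℝ)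
    (κ : ℕ → Type) [∀ n, Fintype (κ n)] (τ : ∀ n, κ n → SL) (r : ∀ n, κ n → ℝ)
    (e : ∀ n, ι → κ n), Conv Γn Γ σ m κ τ r e →
    ∀ k : ℕ, ∀ᶠ n in atTop, ∀ w w' : Fin k → ι,
      (wx (fun i => τ n (e n i)) k w = wx (fun i => τ n (e n i)) k w' ↔ wx σ k w = wx σ k w')

/-- Lower semicontinuity of the mutual information. -/
def S_LSC : Prop :=
  ∀ (ι : Type) [Fintype ι] (Γn : ℕ → Subgroup SL) (Γ : Subgroup SL) (σ : ι → SL) (m : ι → ℝ)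
    (κ : ℕ → Type) [∀ n, Fintype (κ n)] (τ : ∀ n, κ n → SL) (r : ∀ n, κ n → ℝ)
    (e : ∀ n, ι → κ n), Conv Γn Γ σ m κ τ r e →
    ∀ (U : Ultrafilter ℕ) (Ln : ℕ → (C(K, ℝ) →ₗ[ℝ] ℝ)) (L : C(K, ℝ) →ₗ[ℝ] ℝ),
      (U : Filter ℕ) ≤ atTop → (∀ n, IsState (Ln n)) → IsState L →
      (∀ (fn : ℕ → C(K, ℝ)) (f : C(K, ℝ)), Tendsto fn U (𝓝 f) →
        Tendsto (fun n => Ln n (fn n)) U (𝓝 (L f))) →
      ∀ (q : ℕ) (φ : Fin q → C(K, ℝ)) (k : ℕ) (ε : ℝ), IsPart φ → 0 < ε →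
        ∀ᶠ n in (U : Filter ℕ), MI σ m L φ k - ε ≤ MI (τ n) (r n) (Ln n) φ k

/-- Upper semicontinuity of `H(μ^{*k})` for a bounded number of letters. -/
def S_UPP : Prop :=
  ∀ (ι : Type) [Fintype ι] (Γn : ℕ → Subgroup SL) (Γ : Subgroup SL) (σ : ι → SL) (m : ι → ℝ)
    (κ : ℕ → Type) [∀ n, Fintype (κ n)] (τ : ∀ n, κ n → SL) (r : ∀ n, κ n → ℝ)
    (e : ∀ n, ι → κ n), Conv Γn Γ σ m κ τ r e →
    ∀ M : ℕ, (∀ n, Fintype.card (κ n) ≤ M) → ∀ (k : ℕ) (ε : ℝ), 0 < ε →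
      ∀ᶠ n in atTop, Hw (τ n) (r n) k ≤ Hw σ m k + ε

/-! ### From `PSL` to `SL` -/

/-- The entropy of the problem in terms of letters. -/
def S_LAWH : Prop :=
  ∀ (G : Type) [Group G] (S : Finset G) (μ : G → ℝ) (k : ℕ), IsProb S μ →
    shannon (law S μ k) = Hw (fun i : S => (i : G)) (fun i : S => μ i) k

/-- Finite kernels do not change the asymptotic entropy. -/
def S_KER : Prop :=
  ∀ (ι G G' : Type) [Fintype ι] [Group G] [Group G'] (π : G →* G') (σ : ι → G) (m : ι → ℝ),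
    IsPr m → (∃ c : ℕ, ∀ T : Finset G, (∀ x ∈ T, ∀ y ∈ T, π x = π y) → T.card ≤ c) →
    hav (fun i => π (σ i)) m = hav σ m

/-- Lifting the data from `PSL` to `SL`. -/
def S_LIFT : Prop :=
  ∀ (Γn : ℕ → Subgroup PSL) (Γ : Subgroup PSL) (Sn : ℕ → Finset PSL) (S : Finset PSL)
    (μn : ℕ → PSL → ℝ) (μ : PSL → ℝ), Data Γn Γ Sn S μn μ →
    ∃ (Γn' : ℕ → Subgroup SL) (Γ' : Subgroup SL) (σ : S → SL) (τ : ∀ n, Sn n → SL)
      (e : ∀ n, S → Sn n), (∀ i, (σ i : PSL) = i) ∧ (∀ n j, (τ n j : PSL) = j) ∧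
      Conv Γn' Γ' σ (fun i => μ i) (fun n => Sn n) τ (fun n j => μn n j) e

/-! ### The example -/

/-- The unipotent generators of `SL(2, Z)`, as real matrices: `[[1,1],[0,1]]` for `true` and
`[[1,0],[1,1]]` for `false`. -/
def uni (b : Bool) : SL :=
  if b then ⟨!![1, 1; 0, 1], by simp [Matrix.det_fin_two]⟩
  else ⟨!![1, 0; 1, 1], by simp [Matrix.det_fin_two]⟩

/-- Positive words, in `PSL`. -/
def wd (l : List Bool) : PSL := (l.map fun b => (uni b : PSL)).prod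

/-- The modular group in `PSL(2, R)`. -/
def modPSL : Subgroup PSL :=
  ((Matrix.SpecialLinearGroup.map (n := Fin 2) (Int.castRingHom ℝ)).range).map
    (QuotientGroup.mk' (Subgroup.center SL))

/-- The modular group is a lattice. -/
def S_MOD : Prop := IsFuchsian modPSL ∧ FiniteCovolume modPSL

/-- It is generated by the two unipotents. -/
def S_GEN : Prop := Subgroup.closure {wd [true], wd [false]} = modPSL

/-- Positive words are free. -/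
def S_FREE : Prop := Function.Injective wd

/-- Entropy of walks with long jumps in a free semigroup. -/
def S_EXH : Prop :=
  ∀ (G : Type) [Group G] (ev : List Bool → G) (N : ℕ) (ε : ℝ),
    (∀ l l', ev (l ++ l') = ev l * ev l') → Function.Injective ev → 0 ≤ ε → ε ≤ 1 → 1 ≤ N →
    ε * N * Real.log 2 ≤
      hav (fun i : Bool ⊕ (Fin N → Bool) => Sum.elim (fun b => ev [b]) (fun w => ev (List.ofFn w)) i)
        (fun i => Sum.elim (fun _ => (1 - ε) / 2) (fun _ => ε / 2 ^ N) i)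

/-- The counterexample. -/
def S_CEX : Prop :=
  ∃ (Γ : Subgroup PSL) (Sn : ℕ → Finset PSL) (S : Finset PSL) (μn : ℕ → PSL → ℝ)
    (μ : PSL → ℝ), Data (fun _ => Γ) Γ Sn S μn μ ∧ FiniteCovolume Γ ∧
      Tendsto (fun n => avez (Sn n) (μn n)) atTop atTop

end Pool.Agent.K1H32.FE
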